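import Pool.Agent.Helper64.TF.CoreVolA

/-!
# TF-I5-D2: a square with large mass

## `exists_square`
By `hmass` at least half of the mass lies on `⋃ i, core (2 δ) i` (mass finite; `lintegral_add_compl`).
For `x ∈ core (2 δ) i`: `Sqr x s ⊆ core δ i` (`Tame.sq_subset_core`), and `z ∈ Sqr x s ↔ x ∈ Sqr z s`. So
`Σ_i ∫_{z ∈ core δ i} ∫_{x ∈ Sqr z s} ‖w x‖² ≥ Σ_i ∫_{x ∈ core (2δ) i} ‖w x‖² volume (Sqr x s)
 ≥ 4 s² * mass / 2 = 2 s² mass` (Tonelli; `core δ i ⊆ tri i`, all squares `Sqr z s`, `z ∈ core δ i`, are inside `tri i`, `S.μ` is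
`volume` there). If for all `i` and `z ∈ core δ i` the inner integral were `< s²/(4 n K²) mass`, the left side would be
`≤ n * 4 K² * s²/(4 n K²) mass = s² mass < 2 s² mass` (`volume (core δ i) ≤ volume (Sqr (P i 0) K) = 4 K²`):
contradiction (`0 < mass < ⊤`).
-/

open MeasureTheory Set
open scoped ENNReal
open Pool.Agent.Helper87.LS

namespace Pool.Agent.Helper64.TF

variable {V : Type*} [NormedAddCommGroup V] [InnerProductSpace ℂ V]

private theorem h24_tonelli {f : ℂ → ℝ≥0∞} (hf : Measurable f) {A B : Set ℂ}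
    (hA : MeasurableSet A) (hB : MeasurableSet B) {s : ℝ} (hs : 0 ≤ s)
    (hAB : ∀ x ∈ B, Sqr x s ⊆ A) :
    ENNReal.ofReal (4 * s ^ 2) * ∫⁻ x in B, f x ≤ ∫⁻ z in A, ∫⁻ x in Sqr z s, f x := by
  classical
  obtain ⟨T, hTdef⟩ : ∃ T : Set (ℂ × ℂ), T = {p | p.1 ∈ A ∧ p.2 ∈ Sqr p.1 s} := ⟨_, rfl⟩
  have memT : ∀ z x, (z, x) ∈ T ↔ z ∈ A ∧ x ∈ Sqr z s := by
    intro z x
    rw [hTdef]
    exact Iff.rfl
  have hTm : MeasurableSet T := by
    have h1 : IsClosed {p : ℂ × ℂ | |p.2.re - p.1.re| ≤ s ∧ |p.2.im - p.1.im| ≤ s} := by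
      have h3 : IsClosed {p : ℂ × ℂ | |p.2.re - p.1.re| ≤ s} := by
        have c1 : Continuous fun p : ℂ × ℂ => |p.2.re - p.1.re| := by fun_prop
        exact isClosed_le c1 continuous_const
      have h4 : IsClosed {p : ℂ × ℂ | |p.2.im - p.1.im| ≤ s} := by
        have c1 : Continuous fun p : ℂ × ℂ => |p.2.im - p.1.im| := by fun_prop
        exact isClosed_le c1 continuous_const
      exact h3.inter h4
    have h2 : T = (Prod.fst ⁻¹' A) ∩
        {p : ℂ × ℂ | |p.2.re - p.1.re| ≤ s ∧ |p.2.im - p.1.im| ≤ s} := by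
      rw [hTdef]
      rfl
    rw [h2]
    exact (measurable_fst hA).inter h1.measurableSet
  have hgm : Measurable (T.indicator fun p : ℂ × ℂ => f p.2) :=
    (hf.comp measurable_snd).indicator hTm
  calc ENNReal.ofReal (4 * s ^ 2) * ∫⁻ x in B, f x
      = ∫⁻ x in B, ENNReal.ofReal (4 * s ^ 2) * f x := (lintegral_const_mul _ hf).symm
    _ ≤ ∫⁻ x in B, ∫⁻ z, T.indicator (fun p : ℂ × ℂ => f p.2) (z, x) := by
        refine setLIntegral_mono' hB fun x hx => ?_
        calc ENNReal.ofReal (4 * s ^ 2) * f x = f x * volume (Sqr x s) := by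
              rw [volume_sq x hs, mul_comm]
          _ = ∫⁻ z, (Sqr x s).indicator (fun _ => f x) z :=
              (lintegral_indicator_const (measurableSet_sq x s) (f x)).symm
          _ ≤ ∫⁻ z, T.indicator (fun p : ℂ × ℂ => f p.2) (z, x) := by
              refine lintegral_mono fun z => ?_
              by_cases hz : z ∈ Sqr x s
              · have h3 : (z, x) ∈ T := (memT z x).mpr ⟨hAB x hx hz, mem_sq_comm.mp hz⟩
                rw [indicator_of_mem hz, indicator_of_mem h3]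
              · rw [indicator_of_notMem hz]
                exact zero_le
    _ ≤ ∫⁻ x, ∫⁻ z, T.indicator (fun p : ℂ × ℂ => f p.2) (z, x) := setLIntegral_le_lintegral _ _
    _ = ∫⁻ z, ∫⁻ x, T.indicator (fun p : ℂ × ℂ => f p.2) (z, x) := by
        refine lintegral_lintegral_swap ?_
        exact (hgm.comp measurable_swap).aemeasurable
    _ = ∫⁻ z in A, ∫⁻ x in Sqr z s, f x := by
        rw [← lintegral_indicator hA]
        refine lintegral_congr fun z => ?_
        by_cases hz : z ∈ A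
        · rw [indicator_of_mem hz, ← lintegral_indicator (measurableSet_sq z s)]
          refine lintegral_congr fun x => ?_
          by_cases hx : x ∈ Sqr z s
          · rw [indicator_of_mem hx, indicator_of_mem ((memT z x).mpr ⟨hz, hx⟩)]
          · rw [indicator_of_notMem hx, indicator_of_notMem fun h => hx ((memT z x).mp h).2]
        · rw [indicator_of_notMem hz]
          rw [← lintegral_zero (μ := (volume : Measure ℂ))]
          refine lintegral_congr fun x => ?_
          rw [indicator_of_notMem fun h => hz ((memT z x).mp h).1]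

theorem exists_square {S : Surf} {K : ℝ} (hT : Tame S K) {w : ℂ → V} (hw : StronglyMeasurable w)
    {δ s : ℝ} (hs : 0 < s) (hsδ : 2 * s * K ≤ δ) (h0 : mass S w ≠ 0) (h1 : mass S w ≠ ⊤)
    (hmass : 2 * ∫⁻ x in (⋃ i, core S (2 * δ) i)ᶜ, ‖w x‖ₑ ^ 2 ∂S.μ ≤ mass S w) :
    ∃ i, ∃ z ∈ core S δ i, ENNReal.ofReal (s ^ 2 / (4 * S.n * K ^ 2)) * mass S w
      ≤ ∫⁻ x in Sqr z s, ‖w x‖ₑ ^ 2 := by
  have hK1 := hT.one
  have hK0 : 0 < K := by linarith
  have hδ : 0 < δ := lt_of_lt_of_le (by positivity) hsδ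
  by_contra hcon
  push Not at hcon
  obtain ⟨f, hf⟩ : ∃ f : ℂ → ℝ≥0∞, f = fun x => ‖w x‖ₑ ^ 2 := ⟨_, rfl⟩
  have hfm : Measurable f := by
    rw [hf]
    exact hw.enorm.pow_const 2
  have hM : mass S w = ∫⁻ x, f x ∂S.μ := by rw [hf]; rfl
  obtain ⟨C, hC⟩ : ∃ C : Set ℂ, C = ⋃ i, core S (2 * δ) i := ⟨_, rfl⟩
  have hCm : MeasurableSet C := by
    rw [hC]
    exact MeasurableSet.iUnion fun i => (isClosed_core S (2 * δ) i).measurableSet
  obtain ⟨a, ha⟩ : ∃ a, a = ∫⁻ x in C, f x ∂S.μ := ⟨_, rfl⟩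
  obtain ⟨b, hb⟩ : ∃ b, b = ∫⁻ x in Cᶜ, f x ∂S.μ := ⟨_, rfl⟩
  have hsplit : mass S w = a + b := by
    rw [hM, ha, hb, lintegral_add_compl f hCm]
  have hmass' : 2 * b ≤ a + b := by
    rw [← hsplit, hb, hf, hC]
    exact hmass
  have hab : b ≤ a := by
    by_contra h
    push Not at h
    have hbt : b ≠ ⊤ := ne_top_of_le_ne_top h1 (hsplit ▸ le_add_self)
    have h3 : a + b < 2 * b := by
      rw [two_mul]
      exact ENNReal.add_lt_add_right hbt h
    exact absurd hmass' (not_le.mpr h3)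
  have hM2 : mass S w ≤ 2 * a := by
    rw [hsplit, two_mul]
    gcongr
  have hCsum : a ≤ ∑ i, ∫⁻ x in core S (2 * δ) i, f x := by
    rw [ha, hC]
    calc ∫⁻ x in ⋃ i, core S (2 * δ) i, f x ∂S.μ
        ≤ ∑' i, ∫⁻ x in core S (2 * δ) i, f x ∂S.μ := lintegral_iUnion_le _ _
      _ = ∑ i, ∫⁻ x in core S (2 * δ) i, f x ∂S.μ := tsum_fintype _
      _ ≤ ∑ i, ∫⁻ x in core S (2 * δ) i, f x := by
          refine Finset.sum_le_sum fun i _ => ?_
          refine lintegral_mono' ?_ le_rfl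
          exact Measure.restrict_mono le_rfl Measure.restrict_le_self
  have hlow : ∀ i, ENNReal.ofReal (4 * s ^ 2) * ∫⁻ x in core S (2 * δ) i, f x ≤
      ∫⁻ z in core S δ i, ∫⁻ x in Sqr z s, f x := fun i =>
    h24_tonelli hfm (isClosed_core S δ i).measurableSet (isClosed_core S (2 * δ) i).measurableSet
      hs.le fun x hx => hT.sq_subset_core hsδ hx
  have hvc : ∀ i, volume (core S δ i) ≤ ENNReal.ofReal (4 * K ^ 2) := by
    intro i
    rw [← volume_sq (S.P i 0) hK0.le]
    exact measure_mono ((core_subset_tri S hδ i).trans (hT.tri_subset_sqr i))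
  have hup : ∀ i, ∫⁻ z in core S δ i, ∫⁻ x in Sqr z s, f x ≤
      ENNReal.ofReal (s ^ 2 / (4 * S.n * K ^ 2)) * mass S w * ENNReal.ofReal (4 * K ^ 2) := by
    intro i
    calc ∫⁻ z in core S δ i, ∫⁻ x in Sqr z s, f x
        ≤ ∫⁻ _z in core S δ i, ENNReal.ofReal (s ^ 2 / (4 * S.n * K ^ 2)) * mass S w := by
          refine setLIntegral_mono' (isClosed_core S δ i).measurableSet fun z hz => ?_
          have := (hcon i z hz).le
          rw [hf]
          exact this
      _ = ENNReal.ofReal (s ^ 2 / (4 * S.n * K ^ 2)) * mass S w * volume (core S δ i) := by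
          rw [setLIntegral_const]
      _ ≤ _ := by gcongr; exact hvc i
  have hall : ENNReal.ofReal (4 * s ^ 2) * a ≤ ENNReal.ofReal (s ^ 2) * mass S w := by
    calc ENNReal.ofReal (4 * s ^ 2) * a
        ≤ ENNReal.ofReal (4 * s ^ 2) * ∑ i, ∫⁻ x in core S (2 * δ) i, f x := by gcongr
      _ = ∑ i, ENNReal.ofReal (4 * s ^ 2) * ∫⁻ x in core S (2 * δ) i, f x := Finset.mul_sum _ _ _
      _ ≤ ∑ _i : Fin S.n, ENNReal.ofReal (s ^ 2 / (4 * S.n * K ^ 2)) * mass S w *
            ENNReal.ofReal (4 * K ^ 2) :=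
          Finset.sum_le_sum fun i _ => (hlow i).trans (hup i)
      _ = (ENNReal.ofReal S.n * ENNReal.ofReal (s ^ 2 / (4 * S.n * K ^ 2)) *
            ENNReal.ofReal (4 * K ^ 2)) * mass S w := by
          rw [Finset.sum_const, Finset.card_univ, Fintype.card_fin, nsmul_eq_mul,
            ENNReal.ofReal_natCast]
          ring
      _ ≤ ENNReal.ofReal (s ^ 2) * mass S w := by
          gcongr
          rw [← ENNReal.ofReal_mul (by positivity), ← ENNReal.ofReal_mul (by positivity)]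
          apply ENNReal.ofReal_le_ofReal
          rcases Nat.eq_zero_or_pos S.n with h | h
          · rw [h]
            simp only [Nat.cast_zero, zero_mul]
            positivity
          · have h' : (0 : ℝ) < S.n := by exact_mod_cast h
            apply le_of_eq
            field_simp
  have hs2 : 0 < s ^ 2 := by positivity
  have hfin : ENNReal.ofReal (s ^ 2) * mass S w ≠ ⊤ := ENNReal.mul_ne_top ENNReal.ofReal_ne_top h1
  have hpos : ENNReal.ofReal (s ^ 2) * mass S w ≠ 0 := by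
    refine mul_ne_zero ?_ h0
    rw [Ne, ENNReal.ofReal_eq_zero, not_le]
    exact hs2
  have hfinal : 2 * (ENNReal.ofReal (s ^ 2) * mass S w) ≤ ENNReal.ofReal (s ^ 2) * mass S w := by
    calc 2 * (ENNReal.ofReal (s ^ 2) * mass S w)
        ≤ 2 * (ENNReal.ofReal (s ^ 2) * (2 * a)) := by gcongr
      _ = ENNReal.ofReal (4 * s ^ 2) * a := by
          rw [ENNReal.ofReal_mul (by norm_num), show ENNReal.ofReal 4 = 4 by norm_num]
          ring
      _ ≤ _ := hall
  have hlt : ENNReal.ofReal (s ^ 2) * mass S w < 2 * (ENNReal.ofReal (s ^ 2) * mass S w) := by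
    rw [two_mul]
    exact ENNReal.lt_add_right hfin hpos
  exact absurd hfinal (not_le.mpr hlt)

end Pool.Agent.Helper64.TF
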