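import Pool.Agent.Helper64.TF.Cocycle
import Pool.Agent.Helper72.TF.Core

/-!
# I5: from triangle phases to an integer cocycle on darts (helper64)

From `cocycle` (corner values `h`, phases `b_i` in turns): on triangle `i` put `f (i,k) = c Im (P i k) + b_i -
h (i,k)` (a real number for every corner). `f (turn e) - f e = m e ∈ ℤ`. Hence `β = Int.fract f` is a function of the vertices
(`Vert`), and for the dart `e = (i,k)`: `m' e := (f - β)(i,k+1) - (f - β)(i,k)` is an integer; it is odd under `glue` and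
has zero sum over triangles. And `c Im vec e - m' e - (dv β) e = h (i,k+1) - h (i,k)`, of absolute value `≤ 6 n η`.
-/

open MeasureTheory Set
open scoped ENNReal
open Pool.Agent.Helper87.LS Pool.Agent.Helper72.TF

namespace Pool.Agent.Helper64.TF

theorem output (S : Surf) (c : ℝ) (b : Fin S.n → ℝ) (m : Fin S.n × Fin 3 → ℤ) {η : ℝ}
    (hη : 3 * S.n * η < 1)
    (h : ∀ e : Fin S.n × Fin 3, |c * (S.shift e).im + b (S.glue e).1 - b e.1 - m e| ≤ η) :
    ∃ m' ∈ CochZ (ofSurf S), ∃ β ∈ Vert (ofSurf S), ∀ e : Fin S.n × Fin 3,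
      |c * (S.vec e).im - m' e - dv (ofSurf S) β e| ≤ 6 * S.n * η := by
  obtain ⟨hm, hh, hb, hj⟩ := cocycle S c b m hη h
  have h3 : ∀ k : Fin 3, k + 1 + 1 + 1 = k := by decide
  -- corner values
  set f : Fin S.n × Fin 3 → ℝ := fun e => c * (S.P e.1 e.2).im + b e.1 - hh e with hf
  have hf1 : ∀ e, f (turn S e) = f e + m e := by
    intro e
    have h1 := hj e
    have h2 := P_turn S e
    simp only [hf]
    rw [h2, Complex.add_im]
    have h4 : b (turn S e).1 = b (S.glue e).1 := rfl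
    rw [h4]
    linarith
  have hnext : ∀ e : Fin S.n × Fin 3, (ofSurf S).next e = (e.1, e.2 + 1) := fun e => rfl
  have hopp : ∀ e : Fin S.n × Fin 3, (ofSurf S).opp e = S.glue e := fun e => rfl
  set β : Fin S.n × Fin 3 → ℝ := fun e => Int.fract (f e) with hβ
  have hβ1 : ∀ e, β (turn S e) = β e := by
    intro e
    simp only [hβ, hf1 e, Int.fract_add_intCast]
  have hV : β ∈ Vert (ofSurf S) := by
    intro e
    rw [hnext, hopp]
    exact hβ1 e
  set m' : Fin S.n × Fin 3 → ℝ := fun e => (⌊f (e.1, e.2 + 1)⌋ : ℝ) - ⌊f e⌋ with hm'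
  have hfl : ∀ e, f e = ⌊f e⌋ + β e := fun e => (Int.floor_add_fract (f e)).symm
  -- the corner `(glue e).2` is the corner after `(e.1, e.2+1)`
  have hturn2 : ∀ e : Fin S.n × Fin 3, turn S (S.glue e) = (e.1, e.2 + 1) := by
    intro e
    unfold turn
    rw [S.invol]
  have hfloor : ∀ e, (⌊f (turn S e)⌋ : ℝ) = ⌊f e⌋ + m e := by
    intro e
    rw [hf1 e, Int.floor_add_intCast]
    push_cast
    ring
  refine ⟨m', ⟨⟨?_, ?_⟩, ?_⟩, β, hV, ?_⟩
  · intro e
    rw [hopp]
    simp only [hm']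
    have h1 := hfloor (S.glue e)
    rw [hturn2 e] at h1
    have h2 : ((S.glue e).1, (S.glue e).2 + 1) = turn S e := rfl
    rw [h2, hfloor e, h1, hm e]
    push_cast
    ring
  · intro e
    rw [hnext, hnext]
    simp only [hm', h3]
    ring
  · intro e
    exact ⟨⌊f (e.1, e.2 + 1)⌋ - ⌊f e⌋, by simp [hm']⟩
  · intro e
    have h1 : dv (ofSurf S) β e = β (e.1, e.2 + 1) - β e := rfl
    have h2 := hfl e
    have h4 := hfl (e.1, e.2 + 1)
    have h5 : (S.vec e).im = (S.P e.1 (e.2 + 1)).im - (S.P e.1 e.2).im := by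
      simp [Surf.vec]
    have h6 : c * (S.vec e).im - m' e - dv (ofSurf S) β e = hh (e.1, e.2 + 1) - hh e := by
      rw [h1, h5]
      simp only [hm']
      have h7 : f e = c * (S.P e.1 e.2).im + b e.1 - hh e := rfl
      have h8 : f (e.1, e.2 + 1) = c * (S.P e.1 (e.2 + 1)).im + b e.1 - hh (e.1, e.2 + 1) := rfl
      linear_combination h4 - h2 - h8 + h7
    rw [h6]
    have h7 := hb e
    have h8 := hb (e.1, e.2 + 1)
    rw [abs_le] at h7 h8 ⊢
    constructor <;> linarith [h7.1, h7.2, h8.1, h8.2]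

end Pool.Agent.Helper64.TF
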