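import Pool.Agent.Helper64.TF.SqGeom

/-!
# TF-I5-F: phases and integers (linear algebra on a connected graph)

Proof (`C = 8 n + 8` works; let `N = S.n`). Let `i₀` maximise `‖a i‖` (so `m := ‖a i₀‖ ≥ 1`), `v = a i₀`. Let
`s_k = {i | ∃ Θ : ℝ, ‖a i - ex Θ • v‖ ≤ k η}`. `i₀ ∈ s_0`; if `i ∈ s_k` then all neighbours
`(glue (i, κ)).1 ∈ s_{k+1}` (from `‖a i - ex θ • a j‖ ≤ η`: `a j ≈ ex (-θ) • a i`). If `s_k = s_{k+1}` then `s_k = univ`
by `Conn`; otherwise the cardinality grows, so `s_N = univ`. Since `N η ≤ 1/8`: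
`ζ_i := ⟪v, a i⟫` satisfies `‖ζ_i - ex Θ_i m²‖ ≤ m N η ≤ m²/2`, so `‖ζ_i‖ ≥ m²/2`. Put `b i = arg ζ_i`, so
`ζ_i = ‖ζ_i‖ ex (b i)`. For an edge `e = (i, k)`, `j = (glue e).1`:
`‖ζ_i - ex θ_e ζ_j‖ ≤ m η`, hence with `‖x/‖x‖ - y/‖y‖‖ ≤ 2 ‖x-y‖/‖x‖`:
`‖ex (b i) - ex (θ_e + b j)‖ ≤ 4 η / m ≤ 4 η`. Finally for real `φ = θ_e + b j - b i` with `‖ex φ - 1‖ ≤ 4 η` take
`m_e = round (φ / 2π)`: `ψ = φ - 2π m_e ∈ [-π, π]` and `‖ex ψ - 1‖ = 2 |sin (ψ/2)| ≥ (2/π) |ψ|`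
(`Real.mul_abs_le_abs_sin`-type, Jordan), so `|ψ| ≤ 2 π η ≤ 8 η`.
-/

open MeasureTheory Set
open scoped ENNReal
open Pool.Agent.Helper87.LS

namespace Pool.Agent.Helper64.TF

variable {V : Type*} [NormedAddCommGroup V] [InnerProductSpace ℂ V]

/-- Growing sets in a connected finite graph. -/
theorem reach49 {ι : Type*} [Fintype ι] (adj : ι → ι → Prop)
    (hconn : ∀ s : Set ι, s.Nonempty → (∀ i ∈ s, ∀ j, adj i j → j ∈ s) → s = univ)
    (P : ℕ → ι → Prop) (hmono : ∀ k i, P k i → P (k + 1) i) (i0 : ι) (h0 : P 0 i0)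
    (hstep : ∀ k i j, P k i → adj i j → P (k + 1) j) : ∀ i, P (Fintype.card ι) i := by
  classical
  by_contra hc
  push Not at hc
  obtain ⟨i1, hi1⟩ := hc
  have hmono2 : ∀ k l i, P k i → P (k + l) i := by
    intro k l i h
    induction l with
    | zero => exact h
    | succ l ih => exact hmono _ _ ih
  have key : ∀ k, k ≤ Fintype.card ι → k + 1 ≤ (Finset.univ.filter (P k)).card := by
    intro k
    induction k with
    | zero =>
      intro _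
      exact Finset.card_pos.2 ⟨i0, by simpa using h0⟩
    | succ k ih =>
      intro hk
      have h1 := ih (by omega)
      have hss : Finset.univ.filter (P k) ⊆ Finset.univ.filter (P (k + 1)) := by
        intro i hi
        simp only [Finset.mem_filter, Finset.mem_univ, true_and] at hi ⊢
        exact hmono _ _ hi
      have hne : Finset.univ.filter (P k) ≠ Finset.univ.filter (P (k + 1)) := by
        intro heq
        have hcl : {i | P k i} = univ := by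
          refine hconn _ ?_ ?_
          · obtain ⟨i, hi⟩ := Finset.card_pos.1 (lt_of_lt_of_le (Nat.succ_pos k) h1)
            exact ⟨i, by simpa using hi⟩
          · intro i hi j hij
            have h2 : j ∈ Finset.univ.filter (P (k + 1)) := by
              simpa using hstep k i j hi hij
            rw [← heq] at h2
            simpa using h2
        have h3 : P k i1 := by
          have : i1 ∈ {i | P k i} := by rw [hcl]; exact mem_univ _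
          exact this
        obtain ⟨l, hl⟩ := Nat.exists_eq_add_of_le (show k ≤ Fintype.card ι by omega)
        exact hi1 (hl ▸ hmono2 k l i1 h3)
      have h4 := Finset.card_lt_card (lt_of_le_of_ne hss hne)
      omega
  have h5 := key _ le_rfl
  have h6 : (Finset.univ.filter (P (Fintype.card ι))).card ≤ Fintype.card ι :=
    Finset.card_le_univ _
  omega

/-- Jordan's inequality for the distance to `1`. -/
theorem jordan49 {ψ : ℝ} (h : |ψ| ≤ Real.pi) : |ψ| ≤ Real.pi / 2 * ‖ex ψ - 1‖ := by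
  have h1 : ‖ex ψ - 1‖ = 2 * |Real.sin (ψ / 2)| := by
    unfold ex
    rw [mul_comm, Complex.norm_exp_I_mul_ofReal_sub_one, norm_mul, Real.norm_eq_abs,
      Real.norm_eq_abs, abs_of_pos (by norm_num : (0 : ℝ) < 2)]
  have h2 : 2 / Real.pi * (|ψ| / 2) ≤ |Real.sin (ψ / 2)| := by
    have h3 : |Real.sin (ψ / 2)| = Real.sin (|ψ| / 2) := by
      have h4 : |ψ| / 2 = |ψ / 2| := by rw [abs_div, abs_of_pos (by norm_num : (0 : ℝ) < 2)]
      rw [h4]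
      rcases le_or_gt 0 (ψ / 2) with h5 | h5
      · rw [abs_of_nonneg h5, abs_of_nonneg]
        refine Real.sin_nonneg_of_nonneg_of_le_pi h5 ?_
        have := (abs_le.1 h).2
        have := Real.pi_pos
        linarith
      · rw [abs_of_neg h5, Real.sin_neg, abs_of_nonpos]
        refine Real.sin_nonpos_of_nonpos_of_neg_pi_le h5.le ?_
        have := (abs_le.1 h).1
        have := Real.pi_pos
        linarith
    rw [h3]
    refine Real.mul_le_sin (by positivity) ?_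
    linarith
  have hpi := Real.pi_pos
  rw [h1]
  have h5 : |ψ| = Real.pi * (2 / Real.pi * (|ψ| / 2)) := by field_simp
  calc |ψ| = Real.pi * (2 / Real.pi * (|ψ| / 2)) := h5
    _ ≤ Real.pi * |Real.sin (ψ / 2)| := mul_le_mul_of_nonneg_left h2 hpi.le
    _ = Real.pi / 2 * (2 * |Real.sin (ψ / 2)|) := by ring

theorem unit49 {x y : ℂ} (hx : x ≠ 0) (hy : y ≠ 0) :
    ‖x / (‖x‖ : ℂ) - y / (‖y‖ : ℂ)‖ ≤ 2 * ‖x - y‖ / ‖x‖ := by
  have hx' : (0 : ℝ) < ‖x‖ := norm_pos_iff.2 hx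
  have hy' : (0 : ℝ) < ‖y‖ := norm_pos_iff.2 hy
  have h1 : x / (‖x‖ : ℂ) - y / (‖y‖ : ℂ) =
      (x - y) / (‖x‖ : ℂ) + y * ((‖y‖ - ‖x‖ : ℝ) : ℂ) / ((‖x‖ : ℂ) * (‖y‖ : ℂ)) := by
    have h2 : (‖x‖ : ℂ) ≠ 0 := by exact_mod_cast hx'.ne'
    have h3 : (‖y‖ : ℂ) ≠ 0 := by exact_mod_cast hy'.ne'
    push_cast
    field_simp
    ring
  rw [h1]
  calc ‖(x - y) / (‖x‖ : ℂ) + y * ((‖y‖ - ‖x‖ : ℝ) : ℂ) / ((‖x‖ : ℂ) * (‖y‖ : ℂ))‖
      ≤ ‖(x - y) / (‖x‖ : ℂ)‖ + ‖y * ((‖y‖ - ‖x‖ : ℝ) : ℂ) / ((‖x‖ : ℂ) * (‖y‖ : ℂ))‖ :=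
        norm_add_le _ _
    _ = ‖x - y‖ / ‖x‖ + |‖y‖ - ‖x‖| / ‖x‖ := by
        rw [norm_div, norm_div, norm_mul, norm_mul, Complex.norm_real, Complex.norm_real,
          Complex.norm_real, norm_norm, norm_norm, Real.norm_eq_abs]
        congr 1
        field_simp
    _ ≤ ‖x - y‖ / ‖x‖ + ‖x - y‖ / ‖x‖ := by
        have h4 : |‖y‖ - ‖x‖| ≤ ‖x - y‖ := by
          rw [← norm_sub_rev]
          exact abs_norm_sub_norm_le y x
        gcongr
    _ = 2 * ‖x - y‖ / ‖x‖ := by ring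

theorem arg49 {z : ℂ} (hz : z ≠ 0) : z / (‖z‖ : ℂ) = ex z.arg := by
  have h1 : (‖z‖ : ℂ) ≠ 0 := by exact_mod_cast (norm_pos_iff.2 hz).ne'
  rw [div_eq_iff h1, mul_comm]
  exact (Complex.norm_mul_exp_arg_mul_I z).symm

theorem phases {S : Surf} (hS : Conn S) (θ : Fin S.n × Fin 3 → ℝ) (a : Fin S.n → V) {η : ℝ}
    (hη : 0 ≤ η) (hη1 : (8 * S.n + 8) * η ≤ 1)
    (ha : ∀ e : Fin S.n × Fin 3, ‖a e.1 - ex (θ e) • a (S.glue e).1‖ ≤ η)
    (h1 : ∃ i, 1 ≤ ‖a i‖) :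
    ∃ b : Fin S.n → ℝ, ∃ m : Fin S.n × Fin 3 → ℤ, ∀ e : Fin S.n × Fin 3,
      |θ e + b (S.glue e).1 - b e.1 - 2 * Real.pi * m e| ≤ (8 * S.n + 8) * η := by
  classical
  obtain ⟨i1, hi1⟩ := h1
  obtain ⟨i0, -, hi0⟩ := Finset.exists_max_image Finset.univ (fun i => ‖a i‖)
    ⟨i1, Finset.mem_univ i1⟩
  set v := a i0 with hv
  have hm : 1 ≤ ‖v‖ := hi1.trans (hi0 i1 (Finset.mem_univ _))
  -- all vectors are rotations of `v` up to `N η`
  have hall : ∀ i, ∃ Θ : ℝ, ‖a i - ex Θ • v‖ ≤ (Fintype.card (Fin S.n) : ℕ) * η := by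
    refine reach49 (fun i j => ∃ k, (S.glue (i, k)).1 = j) ?_
      (fun k i => ∃ Θ : ℝ, ‖a i - ex Θ • v‖ ≤ (k : ℝ) * η) ?_ i0 ?_ ?_
    · intro s hs hcl
      exact hS s hs fun i hi k => hcl i hi _ ⟨k, rfl⟩
    · rintro k i ⟨Θ, hΘ⟩
      refine ⟨Θ, hΘ.trans ?_⟩
      push_cast
      nlinarith
    · refine ⟨0, ?_⟩
      rw [ex_zero, one_smul, ← hv, sub_self, norm_zero]
      simp
    · rintro k i j ⟨Θ, hΘ⟩ ⟨l, rfl⟩
      refine ⟨-θ (i, l) + Θ, ?_⟩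
      have h2 := ha (i, l)
      simp only at h2
      have h3 : a (S.glue (i, l)).1 - ex (-θ (i, l) + Θ) • v
          = ex (-θ (i, l)) • (a i - ex Θ • v)
            - ex (-θ (i, l)) • (a i - ex (θ (i, l)) • a (S.glue (i, l)).1) := by
        rw [← smul_sub, ex_add, mul_smul]
        have h4 : ex (-θ (i, l)) * ex (θ (i, l)) = 1 := by
          rw [← ex_add, neg_add_cancel, ex_zero]
        have h5 : a (S.glue (i, l)).1
            = ex (-θ (i, l)) • (ex (θ (i, l)) • a (S.glue (i, l)).1) := by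
          rw [← mul_smul, h4, one_smul]
        rw [smul_sub, smul_sub, smul_sub, ← h5]
        abel
      rw [h3]
      calc ‖ex (-θ (i, l)) • (a i - ex Θ • v)
            - ex (-θ (i, l)) • (a i - ex (θ (i, l)) • a (S.glue (i, l)).1)‖
          ≤ ‖ex (-θ (i, l)) • (a i - ex Θ • v)‖
            + ‖ex (-θ (i, l)) • (a i - ex (θ (i, l)) • a (S.glue (i, l)).1)‖ := norm_sub_le _ _
        _ ≤ (k : ℝ) * η + η := by
            rw [norm_smul, norm_smul, norm_ex, one_mul, one_mul]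
            exact add_le_add hΘ h2
        _ = ((k + 1 : ℕ) : ℝ) * η := by push_cast; ring
  have hN : (Fintype.card (Fin S.n) : ℕ) * η ≤ 1 / 8 := by
    rw [Fintype.card_fin]
    nlinarith
  -- the scalar products with `v`
  set ζ : Fin S.n → ℂ := fun i => inner ℂ v (a i) with hζ
  have hζn : ∀ i, ‖v‖ ^ 2 / 2 ≤ ‖ζ i‖ := by
    intro i
    obtain ⟨Θ, hΘ⟩ := hall i
    have h2 : ζ i - ex Θ * (‖v‖ : ℂ) ^ 2 = inner ℂ v (a i - ex Θ • v) := by
      rw [inner_sub_right, inner_smul_right, inner_self_eq_norm_sq_to_K]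
      rfl
    have h3 : ‖ζ i - ex Θ * (‖v‖ : ℂ) ^ 2‖ ≤ ‖v‖ * (1 / 8) := by
      rw [h2]
      exact (norm_inner_le_norm _ _).trans
        (mul_le_mul_of_nonneg_left (hΘ.trans hN) (norm_nonneg _))
    have h4 : ‖ex Θ * (‖v‖ : ℂ) ^ 2‖ = ‖v‖ ^ 2 := by
      rw [norm_mul, norm_ex, one_mul, norm_pow, Complex.norm_real, norm_norm]
    have h5 : ‖v‖ ^ 2 ≤ ‖ζ i‖ + ‖v‖ * (1 / 8) := by
      rw [← h4]
      calc ‖ex Θ * (‖v‖ : ℂ) ^ 2‖ = ‖ζ i - (ζ i - ex Θ * (‖v‖ : ℂ) ^ 2)‖ := by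
            congr 1; ring
        _ ≤ ‖ζ i‖ + ‖ζ i - ex Θ * (‖v‖ : ℂ) ^ 2‖ := norm_sub_le _ _
        _ ≤ ‖ζ i‖ + ‖v‖ * (1 / 8) := by gcongr
    nlinarith
  have hζpos : ∀ i, 0 < ‖ζ i‖ := fun i => lt_of_lt_of_le (by positivity) (hζn i)
  have hζ0 : ∀ i, ζ i ≠ 0 := fun i => norm_pos_iff.1 (hζpos i)
  -- the estimate for one edge
  have hedge : ∀ e : Fin S.n × Fin 3,
      ‖ex (θ e + (ζ (S.glue e).1).arg - (ζ e.1).arg) - 1‖ ≤ 4 * η := by
    intro e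
    have h2 : ζ e.1 - ex (θ e) * ζ (S.glue e).1
        = inner ℂ v (a e.1 - ex (θ e) • a (S.glue e).1) := by
      rw [inner_sub_right, inner_smul_right]
    have h3 : ‖ζ e.1 - ex (θ e) * ζ (S.glue e).1‖ ≤ ‖v‖ * η := by
      rw [h2]
      exact (norm_inner_le_norm _ _).trans (mul_le_mul_of_nonneg_left (ha e) (norm_nonneg _))
    have h4 : ex (θ e) * ζ (S.glue e).1 ≠ 0 := mul_ne_zero (ex_ne_zero _) (hζ0 _)
    have h5 := unit49 (hζ0 e.1) h4
    have h6 : ex (θ e) * ζ (S.glue e).1 / (‖ex (θ e) * ζ (S.glue e).1‖ : ℂ)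
        = ex (θ e + (ζ (S.glue e).1).arg) := by
      rw [norm_mul, norm_ex, one_mul, mul_div_assoc, arg49 (hζ0 _), ex_add]
    rw [arg49 (hζ0 _), h6] at h5
    have h7 : ex (θ e + (ζ (S.glue e).1).arg - (ζ e.1).arg) - 1
        = -(ex (-(ζ e.1).arg) * (ex (ζ e.1).arg - ex (θ e + (ζ (S.glue e).1).arg))) := by
      rw [mul_sub, ← ex_add, ← ex_add, neg_add_cancel, ex_zero]
      rw [neg_sub, sub_eq_add_neg (θ e + (ζ (S.glue e).1).arg), add_comm (-(ζ e.1).arg)]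
    rw [h7, norm_neg, norm_mul, norm_ex, one_mul]
    refine h5.trans ?_
    rw [div_le_iff₀ (hζpos _)]
    have h8 := hζn e.1
    have h9 : ‖v‖ ≤ ‖v‖ ^ 2 := by nlinarith
    calc 2 * ‖ζ e.1 - ex (θ e) * ζ (S.glue e).1‖ ≤ 2 * (‖v‖ * η) := by linarith
      _ ≤ 4 * η * (‖v‖ ^ 2 / 2) := by nlinarith
      _ ≤ 4 * η * ‖ζ e.1‖ := mul_le_mul_of_nonneg_left h8 (by linarith)
  refine ⟨fun i => (ζ i).arg, fun e =>
    round ((θ e + (ζ (S.glue e).1).arg - (ζ e.1).arg) / (2 * Real.pi)), fun e => ?_⟩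
  set φ := θ e + (ζ (S.glue e).1).arg - (ζ e.1).arg with hφ
  have hpi := Real.pi_pos
  set ψ := φ - 2 * Real.pi * (round (φ / (2 * Real.pi)) : ℤ) with hψ
  have hψ1 : |ψ| ≤ Real.pi := by
    have h2 := abs_sub_round (φ / (2 * Real.pi))
    have h3 : ψ = 2 * Real.pi * (φ / (2 * Real.pi) - (round (φ / (2 * Real.pi)) : ℤ)) := by
      rw [hψ]; field_simp
    rw [h3, abs_mul, abs_of_pos (by positivity : (0 : ℝ) < 2 * Real.pi)]
    nlinarith
  have hψ2 : ex ψ = ex φ := by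
    have h2 : ψ = φ + 2 * Real.pi * ((-round (φ / (2 * Real.pi)) : ℤ) : ℝ) := by
      rw [hψ]; push_cast; ring
    rw [h2, ex_add, ex_two_pi_int, mul_one]
  have h2 := jordan49 hψ1
  rw [hψ2] at h2
  have h3 := hedge e
  rw [← hφ] at h3
  have h4 : Real.pi / 2 * ‖ex φ - 1‖ ≤ Real.pi / 2 * (4 * η) :=
    mul_le_mul_of_nonneg_left h3 (by positivity)
  have h5 : Real.pi ≤ 4 := Real.pi_le_four
  have h6 : (0 : ℝ) ≤ S.n := Nat.cast_nonneg _
  calc |ψ| ≤ Real.pi / 2 * (4 * η) := h2.trans h4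
    _ = 2 * Real.pi * η := by ring
    _ ≤ 8 * η := by nlinarith
    _ ≤ (8 * S.n + 8) * η := by nlinarith

end Pool.Agent.Helper64.TF
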