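import Pool.Agent.Helper64.TF.EdgeRel
import Pool.Agent.Helper64.TF.CoreVol
import Pool.Agent.Helper64.TF.Phases
import Pool.Agent.Helper64.TF.Output

/-!
# I5 (closeness), main theorem of this part (helper64)

Input: a `V`-valued function `w` on a tame connected surface, almost invariant under horizontal moves and almost
multiplied by `ex (c t)` under vertical moves `t` (in the mean over moves of length `≤ 1`), at least half of
whose mass is in the cores. Output: an integer cocycle `m` and a function `b` of the vertices with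
`|c/(2π) Im vec h - m h - (dv b) h| ≤ C κ` for every dart `h`.
-/

open MeasureTheory Set
open scoped ENNReal
open Pool.Agent.Helper87.LS Pool.Agent.Helper72.TF

namespace Pool.Agent.Helper64.TF

theorem conn_of_connected {S : Surf} (h : Connected S) : Conn S := by
  intro s hs hcl
  have h1 := h {e | e.1 ∈ s} (by
    obtain ⟨i, hi⟩ := hs
    exact ⟨(i, 0), hi⟩) (by
    rintro ⟨i, k⟩ hi
    exact ⟨hi, hcl i hi k⟩)
  ext i
  simp only [mem_univ, iff_true]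
  have h2 : (i, (0 : Fin 3)) ∈ {e : Fin S.n × Fin 3 | e.1 ∈ s} := by
    rw [h1]; exact mem_univ _
  exact h2

variable {V : Type*} [NormedAddCommGroup V] [InnerProductSpace ℂ V]

theorem enn_add_sq_le (a b : ℝ≥0∞) : (a + b) ^ 2 ≤ 2 * a ^ 2 + 2 * b ^ 2 := by
  have h := ENNReal.rpow_add_le_mul_rpow_add_rpow a b (p := (2 : ℕ)) (by norm_num)
  rw [ENNReal.rpow_natCast, ENNReal.rpow_natCast, ENNReal.rpow_natCast] at h
  have h2 : (2 : ℝ≥0∞) ^ (((2 : ℕ) : ℝ) - 1) = 2 := by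
    norm_num
  rw [h2, mul_add] at h
  exact h

/-- A value on a square with much mass is large. -/
theorem val_large {f : ℂ → V} (hf : StronglyMeasurable f) {z : ℂ} {s ε θ : ℝ} (hs : 0 < s)
    (hε : 0 ≤ ε) {a : V} (ha : Val f (Sqr z s) (ENNReal.ofReal ε) a)
    (h : ENNReal.ofReal θ ≤ ∫⁻ x in Sqr z s, ‖f x‖ₑ ^ 2) :
    θ ≤ 2 * ε + 8 * s ^ 2 * ‖a‖ ^ 2 := by
  have h1 : ∫⁻ x in Sqr z s, ‖f x‖ₑ ^ 2
      ≤ ∫⁻ x in Sqr z s, (2 * ‖f x - a‖ₑ ^ 2 + 2 * ‖a‖ₑ ^ 2) := by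
    apply lintegral_mono
    intro x
    have h2 : ‖f x‖ₑ ≤ ‖f x - a‖ₑ + ‖a‖ₑ := by
      calc ‖f x‖ₑ = ‖(f x - a) + a‖ₑ := by rw [sub_add_cancel]
        _ ≤ _ := enorm_add_le _ _
    calc ‖f x‖ₑ ^ 2 ≤ (‖f x - a‖ₑ + ‖a‖ₑ) ^ 2 := by gcongr
      _ ≤ 2 * ‖f x - a‖ₑ ^ 2 + 2 * ‖a‖ₑ ^ 2 := enn_add_sq_le _ _
  have h3 : ∫⁻ x in Sqr z s, (2 * ‖f x - a‖ₑ ^ 2 + 2 * ‖a‖ₑ ^ 2)
      ≤ ENNReal.ofReal (2 * ε + 8 * s ^ 2 * ‖a‖ ^ 2) := by
    rw [lintegral_add_right _ measurable_const, lintegral_const_mul', lintegral_const,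
      Measure.restrict_apply_univ, volume_sq _ hs.le]
    · have h4 : 2 * ‖a‖ₑ ^ 2 * ENNReal.ofReal (4 * s ^ 2)
          = ENNReal.ofReal (8 * s ^ 2 * ‖a‖ ^ 2) := by
        rw [← ofReal_norm, ← ENNReal.ofReal_pow (norm_nonneg _)]
        have : (2 : ℝ≥0∞) = ENNReal.ofReal 2 := by norm_num
        rw [this, ← ENNReal.ofReal_mul (by norm_num), ← ENNReal.ofReal_mul (by positivity)]
        congr 1
        ring
      have h5 : (2 : ℝ≥0∞) * ∫⁻ x in Sqr z s, ‖f x - a‖ₑ ^ 2 ≤ ENNReal.ofReal (2 * ε) := by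
        rw [ENNReal.ofReal_mul (by norm_num), ENNReal.ofReal_ofNat]
        exact mul_le_mul_right ha _
      rw [h4, ENNReal.ofReal_add (by positivity) (by positivity)]
      exact add_le_add h5 le_rfl
    · norm_num
  have h5 := h.trans (h1.trans h3)
  rwa [ENNReal.ofReal_le_ofReal_iff (by positivity)] at h5

theorem norm_tw (c : ℝ) (w : ℂ → V) (z : ℂ) : ‖tw c w z‖ₑ = ‖w z‖ₑ := by
  unfold tw
  rw [enorm_smul, ← ofReal_norm, norm_ex, ENNReal.ofReal_one, one_mul]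

theorem closeness (V : Type*) [NormedAddCommGroup V] [InnerProductSpace ℂ V] (n : ℕ) (K ρ : ℝ)
    (hK : 1 ≤ K) (hρ : 0 < ρ) :
    ∃ C : ℝ, 0 < C ∧ ∀ S : Surf, S.n = n → Connected S → (∀ e, ‖S.vec e‖ ≤ K) →
      (∀ i, 1 / K ≤ S.area2 i) → ∀ c κ : ℝ, 0 ≤ κ → C * κ ≤ 1 →
      ∀ w : ℂ → V, AlmostEig S c κ w → mass S w ≠ 0 → mass S w ≠ ⊤ →
      2 * ∫⁻ x in (⋃ i, core S ρ i)ᶜ, ‖w x‖ₑ ^ 2 ∂S.μ ≤ mass S w →
      ∃ m ∈ CochZ (ofSurf S), ∃ b ∈ Vert (ofSurf S), ∀ h : Fin S.n × Fin 3,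
        |c / (2 * Real.pi) * (S.vec h).im - m h - dv (ofSurf S) b h| ≤ C * κ := by
  have hK0 : 0 < K := lt_of_lt_of_le one_pos hK
  set s : ℝ := min (1 / (16 * K ^ 5)) (ρ / (4 * K)) with hs_def
  have hs : 0 < s := lt_min (by positivity) (by positivity)
  have hsK : 16 * K ^ 5 * s ≤ 1 := by
    have h1 : s ≤ 1 / (16 * K ^ 5) := min_le_left _ _
    rw [le_div_iff₀ (by positivity)] at h1
    linarith
  have hsρ : 2 * (2 * s * K) ≤ ρ := by
    have h1 : s ≤ ρ / (4 * K) := min_le_right _ _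
    rw [le_div_iff₀ (by positivity)] at h1
    linarith
  have hs1 := s_le_one hK hs hsK
  set n' : ℝ := (n : ℝ) + 1 with hn'
  have hn0 : (0 : ℝ) ≤ n := Nat.cast_nonneg n
  have hn1 : 1 ≤ n' := by linarith
  set G : ℝ := 16 * K * n' with hG
  have hG0 : 0 < G := by positivity
  set C₀ : ℝ := 60 * K / s ^ 3 * G with hC₀
  have hC₀0 : 0 < C₀ := by positivity
  refine ⟨12 * n' * (8 * n' + 8) * C₀, by positivity, ?_⟩
  intro S hSn hconn hedge harea c κ hκ hCκ w hw h0 h1 hmass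
  have hT : Tame S K := ⟨hK, hedge, harea⟩
  have hSn' : (S.n : ℝ) ≤ n' := by rw [hSn]; linarith
  have hSn1 : (1 : ℝ) ≤ S.n := by exact_mod_cast S.pos
  set M : ℝ := (mass S w).toReal with hM_def
  have hM : 0 < M := ENNReal.toReal_pos h0 h1
  have hm : mass S w = ENNReal.ofReal M := (ENNReal.ofReal_toReal h1).symm
  have hsM : 0 < √M := Real.sqrt_pos.mpr hM
  -- smallness of `κ`
  have hκ1 : C₀ * κ * (96 * n') ≤ 1 := by
    have h2 : C₀ * κ * (96 * n') ≤ 12 * n' * (8 * n' + 8) * C₀ * κ := by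
      have h3 : 0 ≤ C₀ * κ := by positivity
      have h4 : 96 * n' ≤ 12 * n' * (8 * n' + 8) := by nlinarith
      nlinarith
    linarith
  have hC₀κ : C₀ * κ ≤ 1 := by
    have h3 : 0 ≤ C₀ * κ := by positivity
    nlinarith
  have hsub : ∀ i, tri (S.P i) ⊆ Sqr (S.P i 0) K := fun i => hT.tri_subset_sqr i
  have hd := depth_le hK hsK
  have hcen : ∀ i, cen S i ∈ core S (2 * s * K) i := fun i => core_anti hd _ (hT.cen_mem i)
  -- values at the centroids
  choose a ha using fun i => exists_val_core hT hw hM hm hs hsK (hcen i)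
  -- a square with large mass
  have hmass' : 2 * ∫⁻ x in (⋃ i, core S (2 * (2 * s * K)) i)ᶜ, ‖w x‖ₑ ^ 2 ∂S.μ ≤ mass S w := by
    refine le_trans ?_ hmass
    gcongr 2 * ?_
    apply lintegral_mono_set
    apply compl_subset_compl.mpr
    exact iUnion_mono fun i => core_anti hsρ i
  obtain ⟨i₀, z₀, hz₀, hz₀m⟩ := exists_square hT hw.meas hs le_rfl h0 h1 hmass'
  obtain ⟨a₀, ha₀⟩ := exists_val_core hT hw hM hm hs hsK hz₀
  have hlarge : s ^ 2 / (4 * S.n * K ^ 2) * M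
      ≤ 2 * (2 / s * κ ^ 2 * M) + 8 * s ^ 2 * ‖a₀‖ ^ 2 := by
    apply val_large (continuous_tw hw.meas) hs (by positivity) ha₀
    rw [hm, ← ENNReal.ofReal_mul (by positivity)] at hz₀m
    refine hz₀m.trans (le_of_eq ?_)
    simp only [norm_tw]
  have hchain := tri_chain hT hw hκ hM hm hs hsK hsub (hcen i₀) hz₀ (ha i₀) ha₀
  -- `G ‖a i₀‖ ≥ √M`
  have hκs : κ ≤ s ^ 3 / (60 * K * G) := by
    rw [le_div_iff₀ (by positivity)]
    have h2 : C₀ * κ = κ * (60 * K * G) / s ^ 3 := by rw [hC₀]; field_simp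
    rw [h2, div_le_one (by positivity)] at hC₀κ
    exact hC₀κ
  have ha0 : √M / (8 * K * n') ≤ ‖a₀‖ := by
    have h2 : κ ^ 2 ≤ (s ^ 3 / (60 * K * G)) ^ 2 := by gcongr
    have h3 : 2 * (2 / s * κ ^ 2 * M) ≤ s ^ 2 / (8 * S.n * K ^ 2) * M := by
      have h4 : 4 / s * (s ^ 3 / (60 * K * G)) ^ 2 ≤ s ^ 2 / (8 * S.n * K ^ 2) := by
        rw [hG, div_pow, div_mul_div_comm, div_le_div_iff₀ (by positivity) (by positivity)]
        have h5 : 4 * (s ^ 3) ^ 2 * (8 * S.n * K ^ 2) = s ^ 2 * s * (32 * S.n * s ^ 3 * K ^ 2) := by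
          ring
        have h6 : s ^ 2 * (s * (60 * K * (16 * K * n')) ^ 2)
            = s ^ 2 * s * (921600 * K ^ 4 * n' ^ 2) := by ring
        rw [h5, h6]
        apply mul_le_mul_of_nonneg_left _ (by positivity)
        have h7 : s ^ 3 ≤ 1 := pow_le_one₀ hs.le (by linarith)
        have h8 : K ^ 2 ≤ K ^ 4 := pow_le_pow_right₀ hK (by norm_num)
        have h9 : (S.n : ℝ) ≤ n' ^ 2 := by nlinarith
        calc 32 * S.n * s ^ 3 * K ^ 2 ≤ 32 * n' ^ 2 * 1 * K ^ 4 := by gcongr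
          _ ≤ 921600 * K ^ 4 * n' ^ 2 := by
              have : 0 ≤ K ^ 4 * n' ^ 2 := by positivity
              nlinarith
      calc 2 * (2 / s * κ ^ 2 * M) = 4 / s * κ ^ 2 * M := by ring
        _ ≤ 4 / s * (s ^ 3 / (60 * K * G)) ^ 2 * M := by gcongr
        _ ≤ s ^ 2 / (8 * S.n * K ^ 2) * M := by gcongr
    have h4 : s ^ 2 / (8 * S.n * K ^ 2) * M ≤ 8 * s ^ 2 * ‖a₀‖ ^ 2 := by
      have h5 : s ^ 2 / (4 * S.n * K ^ 2) * M = 2 * (s ^ 2 / (8 * S.n * K ^ 2) * M) := by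
        field_simp; ring
      linarith
    have h5 : M / (64 * S.n * K ^ 2) ≤ ‖a₀‖ ^ 2 := by
      have h6 : s ^ 2 / (8 * S.n * K ^ 2) * M = 8 * s ^ 2 * (M / (64 * S.n * K ^ 2)) := by
        field_simp; ring
      rw [h6] at h4
      exact le_of_mul_le_mul_left h4 (by positivity)
    apply le_of_sq_le_sq _ (norm_nonneg _)
    refine le_trans ?_ h5
    rw [div_pow, Real.sq_sqrt hM.le]
    apply div_le_div_of_nonneg_left hM.le (by positivity)
    have : (S.n : ℝ) ≤ n' ^ 2 := by nlinarith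
    calc 64 * S.n * K ^ 2 ≤ 64 * n' ^ 2 * K ^ 2 := by gcongr
      _ = (8 * K * n') ^ 2 := by ring
  have hai : √M / G ≤ ‖a i₀‖ := by
    have h2 : 24 * K / s ^ 3 * (κ * √M) ≤ √M / G := by
      have h3 : 24 * K / s ^ 3 * (s ^ 3 / (60 * K * G)) ≤ 1 / G := by
        have : 24 * K / s ^ 3 * (s ^ 3 / (60 * K * G)) = 24 / 60 * (1 / G) := by field_simp
        rw [this]
        have : 0 < 1 / G := by positivity
        linarith
      calc 24 * K / s ^ 3 * (κ * √M) ≤ 24 * K / s ^ 3 * (s ^ 3 / (60 * K * G) * √M) := by gcongr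
        _ = 24 * K / s ^ 3 * (s ^ 3 / (60 * K * G)) * √M := by ring
        _ ≤ 1 / G * √M := by gcongr
        _ = √M / G := by ring
    have h3 : √M / (8 * K * n') = 2 * (√M / G) := by rw [hG]; field_simp; norm_num
    have h4 : ‖a₀‖ ≤ ‖a i₀‖ + ‖a i₀ - a₀‖ := by
      have := norm_sub_norm_le a₀ (a i₀)
      rw [norm_sub_rev] at this
      linarith
    linarith
  -- normalise
  set g : ℝ := G / √M with hg
  have hg0 : 0 < g := by positivity
  have hrel : ∀ e : Fin S.n × Fin 3,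
      ‖(g : ℂ) • a e.1 - ex (c * (S.shift e).im) • ((g : ℂ) • a (S.glue e).1)‖ ≤ C₀ * κ := by
    intro e
    have h2 := edge_rel hT hw hκ hM hm hs hsK hsub e (ha e.1) (ha (S.glue e).1)
    rw [smul_comm (ex (c * (S.shift e).im)), ← smul_sub, norm_smul, Complex.norm_real,
      Real.norm_of_nonneg hg0.le]
    calc g * ‖a e.1 - ex (c * (S.shift e).im) • a (S.glue e).1‖
        ≤ g * (60 * K / s ^ 3 * (κ * √M)) := by gcongr
      _ = C₀ * κ := by rw [hg, hC₀]; field_simp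
  have hone : ∃ i, 1 ≤ ‖(g : ℂ) • a i‖ := by
    refine ⟨i₀, ?_⟩
    rw [norm_smul, Complex.norm_real, Real.norm_of_nonneg hg0.le]
    calc (1 : ℝ) = g * (√M / G) := by rw [hg]; field_simp
      _ ≤ g * ‖a i₀‖ := by gcongr
  have hη0 : 0 ≤ C₀ * κ := by positivity
  have h8 : (8 * (S.n : ℝ) + 8) * (C₀ * κ) ≤ (8 * n' + 8) * (C₀ * κ) := by gcongr
  have h9 : (8 * n' + 8) * (C₀ * κ) ≤ 1 := by nlinarith
  obtain ⟨b, m, hbm⟩ := phases (conn_of_connected hconn) (fun e => c * (S.shift e).im)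
    (fun i => (g : ℂ) • a i) hη0 (h8.trans h9) hrel hone
  -- divide by `2 π`
  have hpi : 1 ≤ 2 * Real.pi := by linarith [Real.pi_gt_three]
  have hpi0 : 0 < 2 * Real.pi := by linarith
  set η : ℝ := (8 * n' + 8) * (C₀ * κ) with hη
  have hη0' : 0 ≤ η := by positivity
  have hbm' : ∀ e : Fin S.n × Fin 3, |c / (2 * Real.pi) * (S.shift e).im
      + b (S.glue e).1 / (2 * Real.pi) - b e.1 / (2 * Real.pi) - m e| ≤ η := by
    intro e
    have h2 := (hbm e).trans h8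
    have h3 : c / (2 * Real.pi) * (S.shift e).im
      + b (S.glue e).1 / (2 * Real.pi) - b e.1 / (2 * Real.pi) - m e
        = (c * (S.shift e).im + b (S.glue e).1 - b e.1 - 2 * Real.pi * m e) / (2 * Real.pi) := by
      field_simp
    rw [h3, abs_div, abs_of_pos hpi0, div_le_iff₀ hpi0]
    calc |c * (S.shift e).im + b (S.glue e).1 - b e.1 - 2 * Real.pi * m e| ≤ η := h2
      _ ≤ η * (2 * Real.pi) := le_mul_of_one_le_right hη0' hpi
  have hCη : 12 * n' * η ≤ 1 := by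
    have : 12 * n' * (8 * n' + 8) * C₀ * κ = 12 * n' * η := by rw [hη]; ring
    linarith
  have h3η : 3 * (S.n : ℝ) * η < 1 := by
    have h2 : 3 * (S.n : ℝ) * η ≤ 3 * n' * η := by gcongr
    nlinarith
  obtain ⟨m', hm', β, hβ, hfin⟩ := output S (c / (2 * Real.pi)) (fun i => b i / (2 * Real.pi)) m
    h3η hbm'
  refine ⟨m', hm', β, hβ, fun e => (hfin e).trans ?_⟩
  have h2 : 6 * (S.n : ℝ) * η ≤ 6 * n' * η := by gcongr
  have h3 : 12 * n' * (8 * n' + 8) * C₀ * κ = 12 * n' * η := by rw [hη]; ring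
  rw [h3]
  nlinarith

end Pool.Agent.Helper64.TF
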