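import Pool.Agent.Helper72.TF.BE3

/-!
# TF: the Hodge norm of a cocycle which is nearly a coboundary (helper64)
-/

open MeasureTheory Set
open Pool.Agent.Helper87.LS Pool.Agent.Helper72.TF

namespace Pool.Agent.Helper64.TF

theorem ar_ofSurf (Y : Surf) (h : Fin Y.n × Fin 3) : ar (ofSurf Y) h = Y.area2 h.1 :=
  Y.cr_vec_succ h.1 h.2

theorem hn2_le (n : ℕ) (K : ℝ) : ∃ CP : ℝ, 0 < CP ∧ ∀ Y : Surf, Y.n = n → (∀ e, ‖Y.vec e‖ ≤ K) →
    (∀ i, 1 / K ≤ Y.area2 i) → ∀ x ∈ Coch (ofSurf Y), ∀ b ∈ Vert (ofSurf Y), ∀ η : ℝ,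
      (∀ h, |x h - dv (ofSurf Y) b h| ≤ η) → hn2 (ofSurf Y) x ≤ CP * η ^ 2 := by
  refine ⟨2 * n * |K| ^ 3 + 1, by positivity, ?_⟩
  intro Y hn hK hA x _ b hb η hη
  subst hn
  have hK0 : 0 < K := by
    have h1 := hK (⟨0, Y.pos⟩, 0)
    have h2 : 0 < ‖Y.vec (⟨0, Y.pos⟩, 0)‖ := norm_pos_iff.mpr (Y.vec_ne_zero _)
    linarith
  have hη0 : 0 ≤ η := (abs_nonneg _).trans (hη (⟨0, Y.pos⟩, 0))
  set y : Fin Y.n × Fin 3 → ℝ := x - dv (ofSurf Y) b with hy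
  have hyη : ∀ h, |y h| ≤ η := fun h => by
    have : y h = x h - dv (ofSurf Y) b h := rfl
    rw [this]
    exact hη h
  have hcob : dv (ofSurf Y) b ∈ Cob (ofSurf Y) := ⟨b, hb, rfl⟩
  have hxy : x = y + dv (ofSurf Y) b := by rw [hy, sub_add_cancel]
  have h1 : hn2 (ofSurf Y) x = hn2 (ofSurf Y) y := by
    conv_lhs => rw [hxy]
    exact hn2_add_cob y hcob
  rw [h1]
  refine (hn2_le_pl y).trans ?_
  have hterm : ∀ h : Fin Y.n × Fin 3,
      ar (ofSurf Y) h / 2 * ‖omega (ofSurf Y) y h‖ ^ 2 ≤ 2 * K ^ 3 * η ^ 2 := by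
    intro h
    have har : 1 / K ≤ ar (ofSurf Y) h := by rw [ar_ofSurf]; exact hA h.1
    have har0 : 0 < ar (ofSurf Y) h := lt_of_lt_of_le (by positivity) har
    have h2 : ‖omega (ofSurf Y) y h‖ ≤ 2 * η * K / ar (ofSurf Y) h := by
      unfold omega
      rw [norm_div, Complex.norm_real, Real.norm_of_nonneg har0.le]
      apply div_le_div_of_nonneg_right _ har0.le
      refine (norm_sub_le _ _).trans ?_
      rw [norm_mul, norm_mul, norm_mul, norm_mul, Complex.norm_I, one_mul, one_mul,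
        Complex.norm_real, Complex.norm_real, Real.norm_eq_abs, Real.norm_eq_abs]
      have h3 : |y ((ofSurf Y).next h)| * ‖(ofSurf Y).vec h‖ ≤ η * K :=
        mul_le_mul (hyη _) (hK _) (norm_nonneg _) hη0
      have h4 : |y h| * ‖(ofSurf Y).vec ((ofSurf Y).next h)‖ ≤ η * K :=
        mul_le_mul (hyη _) (hK _) (norm_nonneg _) hη0
      linarith
    have h5 : 1 / ar (ofSurf Y) h ≤ K := by
      rw [div_le_iff₀ har0]
      rw [div_le_iff₀ hK0] at har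
      linarith
    calc ar (ofSurf Y) h / 2 * ‖omega (ofSurf Y) y h‖ ^ 2
        ≤ ar (ofSurf Y) h / 2 * (2 * η * K / ar (ofSurf Y) h) ^ 2 := by gcongr
      _ = 2 * η ^ 2 * K ^ 2 * (1 / ar (ofSurf Y) h) := by field_simp
      _ ≤ 2 * η ^ 2 * K ^ 2 * K := by gcongr
      _ = 2 * K ^ 3 * η ^ 2 := by ring
  have hsum : ∑ h : Fin Y.n × Fin 3, ar (ofSurf Y) h / 2 * ‖omega (ofSurf Y) y h‖ ^ 2
      ≤ ∑ _h : Fin Y.n × Fin 3, 2 * K ^ 3 * η ^ 2 := Finset.sum_le_sum fun h _ => hterm h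
  rw [Finset.sum_const, Finset.card_univ, Fintype.card_prod, Fintype.card_fin, Fintype.card_fin,
    nsmul_eq_mul] at hsum
  push_cast at hsum
  rw [abs_of_pos hK0]
  have h6 : 0 ≤ η ^ 2 := by positivity
  have h7 : (∑ h : Fin Y.n × Fin 3, ar (ofSurf Y) h / 2 * ‖omega (ofSurf Y) y h‖ ^ 2) / 3
      ≤ ((Y.n : ℝ) * 3 * (2 * K ^ 3 * η ^ 2)) / 3 := by gcongr
  linarith

end Pool.Agent.Helper64.TF
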