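import Pool.Agent.Helper64.TF.SqGeom

/-!
# TF-I5-C: comparing approximate values; chains of squares

## `val_sub`
If `∫_Q ‖f-a‖² ≤ ε`, `∫_{Q'} ‖f-a'‖² ≤ ε'` and `m ≤ volume (Q ∩ Q')`, `m > 0`, then
`m ‖a-a'‖² ≤ ∫_{Q∩Q'} (2‖f-a‖² + 2‖f-a'‖²) ≤ 2 (ε + ε')`, so `‖a-a'‖ ≤ √(2 (ε + ε') / m)`.

## `chain`
Put `z_l = z + (l/N) (z'-z)`, `l = 0..N` (`N = 0` forces `z' = z`), with approximate values `a_0 = a`,
`a_N = a'` and `a_l` from `hval`. Consecutive centres are at distance `≤ s`, so the squares overlap in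
measure `≥ s²` (`volume_sq_inter`) and `‖a_l - a_{l+1}‖ ≤ √(4 ε / s²) = 2 √ε / s`. Sum over `l`.
-/

open MeasureTheory Set
open scoped ENNReal

namespace Pool.Agent.Helper64.TF

variable {V : Type*} [NormedAddCommGroup V] [InnerProductSpace ℂ V]

theorem val_sub {f : ℂ → V} (hf : StronglyMeasurable f) {Q Q' : Set ℂ} (hQ : MeasurableSet Q)
    (hQ' : MeasurableSet Q') {ε ε' m : ℝ} (hε : 0 ≤ ε) (hε' : 0 ≤ ε') (hm : 0 < m)
    (hvol : ENNReal.ofReal m ≤ volume (Q ∩ Q')) {a a' : V}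
    (ha : Val f Q (ENNReal.ofReal ε) a) (ha' : Val f Q' (ENNReal.ofReal ε') a') :
    ‖a - a'‖ ≤ √(2 * (ε + ε') / m) := by
  have hpt : ∀ x, ‖a - a'‖ₑ ^ 2 ≤ 2 * ‖f x - a‖ₑ ^ 2 + 2 * ‖f x - a'‖ₑ ^ 2 := by
    intro x
    have h1 : ‖a - a'‖ ^ 2 ≤ 2 * ‖f x - a‖ ^ 2 + 2 * ‖f x - a'‖ ^ 2 := by
      have h2 : ‖a - a'‖ ≤ ‖f x - a‖ + ‖f x - a'‖ := by
        have h3 : a - a' = (f x - a') - (f x - a) := by abel
        rw [h3]
        linarith [norm_sub_le (f x - a') (f x - a)]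
      nlinarith [norm_nonneg (a - a'), norm_nonneg (f x - a), norm_nonneg (f x - a'),
        sq_nonneg (‖f x - a‖ - ‖f x - a'‖)]
    have e : ∀ v : V, ‖v‖ₑ ^ 2 = ENNReal.ofReal (‖v‖ ^ 2) := by
      intro v
      rw [ENNReal.ofReal_pow (norm_nonneg _), ofReal_norm]
    rw [e, e, e]
    have h2 : (2 : ℝ≥0∞) = ENNReal.ofReal 2 := by simp
    rw [h2, ← ENNReal.ofReal_mul (by norm_num), ← ENNReal.ofReal_mul (by norm_num),
      ← ENNReal.ofReal_add (by positivity) (by positivity)]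
    exact ENNReal.ofReal_le_ofReal h1
  have h1 : ∫⁻ _ in Q ∩ Q', ‖a - a'‖ₑ ^ 2 ≤
      ∫⁻ x in Q ∩ Q', (2 * ‖f x - a‖ₑ ^ 2 + 2 * ‖f x - a'‖ₑ ^ 2) :=
    lintegral_mono fun x => hpt x
  have hm1 : Measurable fun x => ‖f x - a‖ₑ ^ 2 :=
    (hf.sub stronglyMeasurable_const).enorm.pow_const 2
  have hm2 : Measurable fun x => ‖f x - a'‖ₑ ^ 2 :=
    (hf.sub stronglyMeasurable_const).enorm.pow_const 2
  rw [lintegral_add_left (hm1.const_mul 2), lintegral_const_mul _ hm1, lintegral_const_mul _ hm2,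
    setLIntegral_const] at h1
  have h2 : ∫⁻ x in Q ∩ Q', ‖f x - a‖ₑ ^ 2 ≤ ENNReal.ofReal ε :=
    (lintegral_mono_set inter_subset_left).trans ha
  have h3 : ∫⁻ x in Q ∩ Q', ‖f x - a'‖ₑ ^ 2 ≤ ENNReal.ofReal ε' :=
    (lintegral_mono_set inter_subset_right).trans ha'
  have h4 : ENNReal.ofReal (‖a - a'‖ ^ 2 * m) ≤ ENNReal.ofReal (2 * (ε + ε')) := by
    calc ENNReal.ofReal (‖a - a'‖ ^ 2 * m) = ‖a - a'‖ₑ ^ 2 * ENNReal.ofReal m := by
          rw [ENNReal.ofReal_mul (by positivity), ENNReal.ofReal_pow (norm_nonneg _), ofReal_norm]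
      _ ≤ ‖a - a'‖ₑ ^ 2 * volume (Q ∩ Q') := by gcongr
      _ ≤ 2 * ENNReal.ofReal ε + 2 * ENNReal.ofReal ε' := by
          refine h1.trans ?_
          gcongr
      _ = ENNReal.ofReal (2 * (ε + ε')) := by
          rw [ENNReal.ofReal_mul (by norm_num), ENNReal.ofReal_add hε hε']
          simp [mul_add]
  have h5 : ‖a - a'‖ ^ 2 * m ≤ 2 * (ε + ε') := by
    rwa [ENNReal.ofReal_le_ofReal_iff (by positivity)] at h4
  apply Real.le_sqrt_of_sq_le
  rw [le_div_iff₀ hm]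
  exact h5

theorem chain {f : ℂ → V} (hf : StronglyMeasurable f) {z z' : ℂ} {s ε : ℝ} (hs : 0 < s)
    (hε : 0 ≤ ε) {N : ℕ} (hN : ‖z' - z‖ ≤ N * s)
    (hval : ∀ x ∈ segment ℝ z z', ∃ a, Val f (Sqr x s) (ENNReal.ofReal ε) a) {a a' : V}
    (ha : Val f (Sqr z s) (ENNReal.ofReal ε) a) (ha' : Val f (Sqr z' s) (ENNReal.ofReal ε) a') :
    ‖a - a'‖ ≤ (N + 1) * (2 * √ε / s) := by
  have key : ∀ x y : ℂ, ‖x - y‖ ≤ s → ∀ b b' : V, Val f (Sqr x s) (ENNReal.ofReal ε) b →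
      Val f (Sqr y s) (ENNReal.ofReal ε) b' → ‖b - b'‖ ≤ 2 * √ε / s := by
    intro x y hxy b b' hb hb'
    have h1 := val_sub hf (measurableSet_sq x s) (measurableSet_sq y s) hε hε
      (by positivity : (0 : ℝ) < s ^ 2) (volume_sq_inter hs.le hxy) hb hb'
    refine h1.trans (le_of_eq ?_)
    have h2 : 2 * (ε + ε) / s ^ 2 = (2 * √ε / s) ^ 2 := by
      rw [div_pow, mul_pow, Real.sq_sqrt hε]
      ring
    rw [h2, Real.sqrt_sq (by positivity)]
  have hz : z + ((N : ℝ) / N : ℝ) • (z' - z) = z' := by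
    rcases Nat.eq_zero_or_pos N with h | h
    · subst h
      simp only [CharP.cast_eq_zero, zero_mul, norm_le_zero_iff] at hN
      rw [hN, smul_zero, add_zero]
      exact (sub_eq_zero.1 hN).symm
    · have : (N : ℝ) ≠ 0 := by exact_mod_cast h.ne'
      rw [div_self this, one_smul]
      ring
  have main : ∀ l : ℕ, l ≤ N → ∀ b : V,
      Val f (Sqr (z + ((l : ℝ) / N : ℝ) • (z' - z)) s) (ENNReal.ofReal ε) b →
      ‖a - b‖ ≤ (l + 1) * (2 * √ε / s) := by
    intro l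
    induction l with
    | zero =>
      intro _ b hb
      have h1 : z + (((0 : ℕ) : ℝ) / N : ℝ) • (z' - z) = z := by simp
      rw [h1] at hb
      have := key z z (by simp [hs.le]) a b ha hb
      simpa using this
    | succ l ih =>
      intro hl b hb
      have hNpos : (0 : ℝ) < N := by
        have : 0 < N := by omega
        exact_mod_cast this
      have hlN : (l : ℝ) ≤ N := by
        have : l ≤ N := by omega
        exact_mod_cast this
      obtain ⟨b', hb'⟩ := hval (z + ((l : ℝ) / N : ℝ) • (z' - z)) (by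
        rw [segment_eq_image']
        exact ⟨(l : ℝ) / N, ⟨by positivity, by rw [div_le_one hNpos]; exact hlN⟩, rfl⟩)
      have h1 := ih (by omega) b' hb'
      have h2 : ‖(z + ((l : ℝ) / N : ℝ) • (z' - z)) -
          (z + (((l + 1 : ℕ) : ℝ) / N : ℝ) • (z' - z))‖ ≤ s := by
        have h3 : (z + ((l : ℝ) / N : ℝ) • (z' - z)) -
            (z + (((l + 1 : ℕ) : ℝ) / N : ℝ) • (z' - z)) = (-(1 / N) : ℝ) • (z' - z) := by
          rw [add_sub_add_left_eq_sub, ← sub_smul]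
          congr 1
          push_cast
          field_simp
          ring
        rw [h3, norm_smul, norm_neg, Real.norm_eq_abs, abs_of_pos (by positivity),
          one_div, inv_mul_le_iff₀ hNpos]
        exact hN
      have h4 := key _ _ h2 b' b hb' hb
      have h5 : ‖a - b‖ ≤ ‖a - b'‖ + ‖b' - b‖ := by
        have : a - b = (a - b') + (b' - b) := by abel
        rw [this]
        exact norm_add_le _ _
      push_cast
      linarith
  exact main N le_rfl a' (by rw [hz]; exact ha')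

end Pool.Agent.Helper64.TF
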