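import Mathlib

/-!
# TF-I5-G1: coboundaries on cycles

## `potential`
`R` a permutation of a finite type `X`, `ε : X → ℝ`, `|ε| ≤ η`, and the sum of `ε` over every closed orbit
piece vanishes: `R^p x = x → Σ_{t<p} ε (R^t x) = 0`. Then there is `h` with `h (R x) - h x = ε x`,
`|h| ≤ card X * η`. Proof: choose a representative `ρ x` of every cycle (a function constant on cycles, e.g. via
`Quotient.out` for the setoid `Equiv.Perm.SameCycle.setoid R`); `x = R^t (ρ x)` with `t < card X`
(`Equiv.Perm.SameCycle.exists_pow_eq'` or similar); put `h x = Σ_{u<t} ε (R^u (ρ x))` (independent of `t` by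
the hypothesis).
-/

namespace Pool.Agent.Helper64.TF

private theorem h2_sum_eq {X : Type*} (R : Equiv.Perm X) (ε : X → ℝ)
    (h0 : ∀ (p : ℕ) (x : X), 0 < p → (R ^ p) x = x → ∑ t ∈ Finset.range p, ε ((R ^ t) x) = 0)
    (y : X) (s t : ℕ) (hst : (R ^ s) y = (R ^ t) y) :
    ∑ u ∈ Finset.range s, ε ((R ^ u) y) = ∑ u ∈ Finset.range t, ε ((R ^ u) y) := by
  have key : ∀ s t : ℕ, s ≤ t → (R ^ s) y = (R ^ t) y →
      ∑ u ∈ Finset.range s, ε ((R ^ u) y) = ∑ u ∈ Finset.range t, ε ((R ^ u) y) := by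
    intro s t hle h
    obtain ⟨p, rfl⟩ := Nat.exists_eq_add_of_le hle
    rw [Finset.sum_range_add]
    rcases Nat.eq_zero_or_pos p with hp | hp
    · subst hp; simp
    · have h1 : (R ^ p) ((R ^ s) y) = (R ^ s) y := by
        rw [← Equiv.Perm.mul_apply, ← pow_add, add_comm p s, ← h]
      have h2 := h0 p ((R ^ s) y) hp h1
      have h3 : ∑ x ∈ Finset.range p, ε ((R ^ (s + x)) y)
          = ∑ x ∈ Finset.range p, ε ((R ^ x) ((R ^ s) y)) := by
        refine Finset.sum_congr rfl fun x _ => ?_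
        rw [← Equiv.Perm.mul_apply, ← pow_add, add_comm x s]
      rw [h3, h2, add_zero]
  rcases le_total s t with h | h
  · exact key s t h hst
  · exact (key t s h hst.symm).symm

theorem potential {X : Type*} [Fintype X] [DecidableEq X] (R : Equiv.Perm X) (ε : X → ℝ) {η : ℝ}
    (hη : ∀ x, |ε x| ≤ η)
    (h0 : ∀ (p : ℕ) (x : X), 0 < p → (R ^ p) x = x → ∑ t ∈ Finset.range p, ε ((R ^ t) x) = 0) :
    ∃ h : X → ℝ, (∀ x, h (R x) - h x = ε x) ∧ ∀ x, |h x| ≤ Fintype.card X * η := by
  classical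
  let ρ : X → X := fun x => Quotient.out (Quotient.mk (Equiv.Perm.SameCycle.setoid R) x)
  have hρ : ∀ x, Equiv.Perm.SameCycle R (ρ x) x := fun x =>
    Quotient.exact (Quotient.out_eq (Quotient.mk (Equiv.Perm.SameCycle.setoid R) x))
  have hρR : ∀ x, ρ (R x) = ρ x := by
    intro x
    have : (Quotient.mk (Equiv.Perm.SameCycle.setoid R) (R x))
        = Quotient.mk (Equiv.Perm.SameCycle.setoid R) x := by
      apply Quotient.sound
      change Equiv.Perm.SameCycle R (R x) x
      exact ⟨-1, by simp⟩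
    change Quotient.out (Quotient.mk (Equiv.Perm.SameCycle.setoid R) (R x)) = _
    rw [this]
  have hex : ∀ x, ∃ t : ℕ, (R ^ t) (ρ x) = x := by
    intro x
    obtain ⟨i, hi⟩ := hρ x
    have hfin : IsOfFinOrder R := isOfFinOrder_of_finite R
    obtain ⟨n, hn⟩ := (hfin.mem_powers_iff_mem_zpowers (y := R ^ i)).2 ⟨i, rfl⟩
    refine ⟨n, ?_⟩
    have hn' : R ^ n = R ^ i := hn
    rw [hn', hi]
  let τ : X → ℕ := fun x => Nat.find (hex x)
  have hτ : ∀ x, (R ^ τ x) (ρ x) = x := fun x => Nat.find_spec (hex x)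
  have hτlt : ∀ x, τ x < Fintype.card X := by
    intro x
    have hinj : Function.Injective (fun i : Fin (τ x + 1) => (R ^ (i : ℕ)) (ρ x)) := by
      have key : ∀ i j : ℕ, i < j → j ≤ τ x → (R ^ i) (ρ x) = (R ^ j) (ρ x) → False := by
        intro i j hij hj h
        have h1 : (R ^ (τ x - j + i)) (ρ x) = x := by
          rw [pow_add, Equiv.Perm.mul_apply, h, ← Equiv.Perm.mul_apply, ← pow_add,
            Nat.sub_add_cancel hj]
          exact hτ x
        exact Nat.find_min (hex x) (m := τ x - j + i) (by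
          change τ x - j + i < τ x
          omega) h1
      intro i j hij
      rcases lt_trichotomy (i : ℕ) (j : ℕ) with h | h | h
      · exact (key i j h (by omega) hij).elim
      · exact Fin.ext h
      · exact (key j i h (by omega) hij.symm).elim
    have := Fintype.card_le_of_injective _ hinj
    rw [Fintype.card_fin] at this
    omega
  refine ⟨fun x => ∑ u ∈ Finset.range (τ x), ε ((R ^ u) (ρ x)), fun x => ?_, fun x => ?_⟩
  · have h1 : (R ^ τ (R x)) (ρ x) = (R ^ (τ x + 1)) (ρ x) := by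
      have h2 := hτ (R x)
      rw [hρR] at h2
      rw [h2, pow_succ', Equiv.Perm.mul_apply, hτ x]
    have h3 := h2_sum_eq R ε h0 (ρ x) _ _ h1
    simp only [hρR]
    rw [h3, Finset.sum_range_succ, hτ x]
    ring
  · have hη0 : 0 ≤ η := (abs_nonneg _).trans (hη x)
    calc |∑ u ∈ Finset.range (τ x), ε ((R ^ u) (ρ x))|
        ≤ ∑ u ∈ Finset.range (τ x), |ε ((R ^ u) (ρ x))| := Finset.abs_sum_le_sum_abs _ _
      _ ≤ ∑ _u ∈ Finset.range (τ x), η := Finset.sum_le_sum fun u _ => hη _
      _ = τ x * η := by rw [Finset.sum_const, Finset.card_range, nsmul_eq_mul]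
      _ ≤ Fintype.card X * η := by
          apply mul_le_mul_of_nonneg_right _ hη0
          exact_mod_cast (hτlt x).le

end Pool.Agent.Helper64.TF
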