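import Pool.Agent.Helper64.TF.SqGeom
import Pool.Agent.Helper64.TF.Potential

/-!
# TF-I5-G2: the jump cocycle is a coboundary on corners

## `turn_perm`, `P_turn`
`turn S e = ((glue e).1, (glue e).2 + 1)` is injective (`glue` is), so a permutation of the finite type
`Fin n × Fin 3`; and `P (turn e) = P e + shift e` (`P (turn e) = P (glue e).1 ((glue e).2 + 1)`, use `opp` and the
definition of `shift`).

## `cocycle`
`ε_e = c (shift e).im + b (glue e).1 - b e.1 - m_e`, `|ε_e| ≤ η`, `3 n η < 1` (so `2 η < 1` as `n ≥ 1`). Then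
* `ε (glue e) = - ε e`, `m (glue e) = - m e`: the `c`- and `b`-parts are antisymmetric (`shift_glue`, `invol`), so
  `ε (glue e) + ε e = -(m (glue e) + m e)` is an integer of absolute value `≤ 2 η < 1`, hence `0`.
* if `turn^p e = e` then `Σ_{t<p} ε (turn^t e) ∈ ℤ` (telescoping: `Σ shift = P - P = 0` by `P_turn`, `Σ b = 0` because
  `(turn e).1 = (glue e).1`). With `p` the minimal period `p ≤ card = 3 n`, so `|Σ| ≤ 3 n η < 1` and the sum is `0`; for a general
  `p` (a multiple of the minimal period) the sum is a multiple of this one.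
Then `potential` gives `h : Fin n × Fin 3 → ℝ` with `h (turn e) - h e = ε e`, `|h| ≤ 3 n η`
(`Equiv.ofBijective (turn S)`, `Finite.injective_iff_bijective`).
-/

open MeasureTheory Set
open scoped ENNReal
open Pool.Agent.Helper87.LS

namespace Pool.Agent.Helper64.TF

/-- additivity of the orbit sums -/
theorem psum_add_h99 {X : Type*} (R : Equiv.Perm X) (ε : X → ℝ) (p q : ℕ) (x : X) :
    ∑ t ∈ Finset.range (p + q), ε ((R ^ t) x) =
      ∑ t ∈ Finset.range p, ε ((R ^ t) x) + ∑ t ∈ Finset.range q, ε ((R ^ t) ((R ^ p) x)) := by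
  rw [Finset.sum_range_add]
  congr 1
  refine Finset.sum_congr rfl fun t _ => ?_
  rw [← Equiv.Perm.mul_apply, ← pow_add, add_comm p t]

theorem turn_injective (S : Surf) : Function.Injective (turn S) := by
  intro e e' h
  unfold turn at h
  have h1 := (Prod.mk.inj h).1
  have h2 := (Prod.mk.inj h).2
  have h3 : S.glue e = S.glue e' := Prod.ext h1 (add_right_cancel h2)
  have h4 := congrArg S.glue h3
  rwa [S.invol, S.invol] at h4

theorem P_turn (S : Surf) (e : Fin S.n × Fin 3) :
    S.P (turn S e).1 (turn S e).2 = S.P e.1 e.2 + S.shift e := by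
  have h := S.opp e
  unfold turn Surf.shift
  linear_combination h

/-- if the bound holds and closed orbit sums are integers then they vanish -/
theorem psum_zero_h99 {X : Type*} [Fintype X] (R : Equiv.Perm X) (ε : X → ℝ) {η : ℝ}
    (hη : ∀ x, |ε x| ≤ η) (hc : Fintype.card X * η < 1)
    (hint : ∀ (p : ℕ) (x : X), (R ^ p) x = x → ∃ z : ℤ, ∑ t ∈ Finset.range p, ε ((R ^ t) x) = z) :
    ∀ (p : ℕ) (x : X), 0 < p → (R ^ p) x = x → ∑ t ∈ Finset.range p, ε ((R ^ t) x) = 0 := by
  intro p
  induction p using Nat.strong_induction_on with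
  | _ p ih =>
    intro x hp hx
    have hη0 : 0 ≤ η := (abs_nonneg _).trans (hη x)
    have hper : Function.IsPeriodicPt R p x := by
      unfold Function.IsPeriodicPt Function.IsFixedPt
      rw [Equiv.Perm.iterate_eq_pow]
      exact hx
    have hpos := hper.minimalPeriod_pos hp
    have hle := hper.minimalPeriod_le hp
    set q := Function.minimalPeriod R x with hq
    have hqc : q ≤ Fintype.card X := Function.minimalPeriod_le_card
    have hqx : (R ^ q) x = x := by
      rw [← Equiv.Perm.iterate_eq_pow]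
      exact Function.iterate_minimalPeriod
    have hq0 : ∑ t ∈ Finset.range q, ε ((R ^ t) x) = 0 := by
      obtain ⟨z, hz⟩ := hint q x hqx
      have h1 : |∑ t ∈ Finset.range q, ε ((R ^ t) x)| < 1 := by
        calc |∑ t ∈ Finset.range q, ε ((R ^ t) x)|
            ≤ ∑ t ∈ Finset.range q, |ε ((R ^ t) x)| := Finset.abs_sum_le_sum_abs _ _
          _ ≤ ∑ t ∈ Finset.range q, η := Finset.sum_le_sum fun u _ => hη _
          _ = q * η := by rw [Finset.sum_const, Finset.card_range, nsmul_eq_mul]
          _ ≤ Fintype.card X * η := by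
            have : (q : ℝ) ≤ Fintype.card X := by exact_mod_cast hqc
            exact mul_le_mul_of_nonneg_right this hη0
          _ < 1 := hc
      rw [hz] at h1 ⊢
      have h2 : |z| < 1 := by exact_mod_cast h1
      have h3 : z = 0 := Int.abs_lt_one_iff.1 h2
      rw [h3, Int.cast_zero]
    rcases Nat.lt_or_ge q p with hlt | hge
    · obtain ⟨k, rfl⟩ := Nat.exists_eq_add_of_le hle
      rw [psum_add_h99, hq0, hqx, zero_add]
      apply ih k (by omega) x (by omega)
      have h1 : (R ^ (q + k)) x = (R ^ k) ((R ^ q) x) := by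
        rw [← Equiv.Perm.mul_apply, ← pow_add, add_comm k q]
      rw [hqx] at h1
      rw [← h1]
      exact hx
    · have : p = q := le_antisymm hge hle
      rw [this]
      exact hq0

theorem cocycle (S : Surf) (c : ℝ) (b : Fin S.n → ℝ) (m : Fin S.n × Fin 3 → ℤ) {η : ℝ}
    (hη : 3 * S.n * η < 1)
    (h : ∀ e : Fin S.n × Fin 3, |c * (S.shift e).im + b (S.glue e).1 - b e.1 - m e| ≤ η) :
    (∀ e, m (S.glue e) = - m e) ∧
    ∃ h : Fin S.n × Fin 3 → ℝ, (∀ e, |h e| ≤ 3 * S.n * η) ∧
      ∀ e, h (turn S e) - h e = c * (S.shift e).im + b (S.glue e).1 - b e.1 - m e := by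
  have hcard : (Fintype.card (Fin S.n × Fin 3) : ℝ) = 3 * S.n := by
    rw [Fintype.card_prod, Fintype.card_fin, Fintype.card_fin]
    push_cast
    ring
  constructor
  · intro e
    have h1 := h e
    have h2 := h (S.glue e)
    rw [S.invol, S.shift_glue, Complex.neg_im] at h2
    have hη0 : 0 ≤ η := (abs_nonneg _).trans h1
    have hn : (1 : ℝ) ≤ S.n := by exact_mod_cast S.pos
    have h3 : 3 * η ≤ 3 * S.n * η := by nlinarith
    rw [abs_le] at h1 h2
    have h4 : |((m (S.glue e) + m e : ℤ) : ℝ)| < 1 := by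
      rw [abs_lt]
      push_cast
      constructor <;> linarith [h1.1, h1.2, h2.1, h2.2]
    have h5 : |m (S.glue e) + m e| < 1 := by exact_mod_cast h4
    have h6 := Int.abs_lt_one_iff.1 h5
    omega
  · set R : Equiv.Perm (Fin S.n × Fin 3) :=
      Equiv.ofBijective (turn S) (Finite.injective_iff_bijective.1 (turn_injective S)) with hR
    have hRe : ∀ e, R e = turn S e := fun e => rfl
    set ε : Fin S.n × Fin 3 → ℝ := fun e => c * (S.shift e).im + b (S.glue e).1 - b e.1 - m e with hε
    have hεη : ∀ e, |ε e| ≤ η := h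
    have hint : ∀ (p : ℕ) (e : Fin S.n × Fin 3), (R ^ p) e = e →
        ∃ z : ℤ, ∑ t ∈ Finset.range p, ε ((R ^ t) e) = z := by
      intro p e hp
      have key : ∀ p : ℕ, ∑ t ∈ Finset.range p, ε ((R ^ t) e) =
          c * ((S.P ((R ^ p) e).1 ((R ^ p) e).2).im - (S.P e.1 e.2).im) + (b ((R ^ p) e).1 - b e.1)
            - ((∑ t ∈ Finset.range p, m ((R ^ t) e) : ℤ) : ℝ) := by
        intro p
        induction p with
        | zero => simp
        | succ p ih =>
          rw [Finset.sum_range_succ, ih, Finset.sum_range_succ, pow_succ', Equiv.Perm.mul_apply, hRe,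
            P_turn S ((R ^ p) e)]
          simp only [hε, Complex.add_im]
          have h1 : (turn S ((R ^ p) e)).1 = (S.glue ((R ^ p) e)).1 := rfl
          rw [h1]
          push_cast
          ring
      refine ⟨-(∑ t ∈ Finset.range p, m ((R ^ t) e)), ?_⟩
      rw [key p, hp]
      push_cast
      ring
    have h0 := psum_zero_h99 R ε hεη (by rw [hcard]; exact hη) hint
    obtain ⟨g, hg1, hg2⟩ := potential R ε hεη h0
    refine ⟨g, ?_, ?_⟩
    · intro e
      have := hg2 e
      rwa [hcard] at this
    · intro e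
      exact hg1 e

end Pool.Agent.Helper64.TF
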