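import Pool.Agent.Helper64.TF.SqGeom

/-!
# TF-I5-D1: areas of the triangles and of their cores
-/

open MeasureTheory Set
open scoped ENNReal
open Pool.Agent.Helper87.LS

namespace Pool.Agent.Helper64.TF

theorem Tame.tri_subset_sqr {S : Surf} {K : ℝ} (hT : Tame S K) (i : Fin S.n) :
    tri (S.P i) ⊆ Sqr (S.P i 0) K := by
  intro z hz
  rw [S.mem_tri] at hz
  have harea := S.area2_pos i
  have h0 := hz 0
  have h1 := hz 1
  have h2 := hz 2
  have hs : S.ell (i, 0) z + S.ell (i, 1) z + S.ell (i, 2) z = S.area2 i := S.ell_sum i 0 z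
  have key : (S.area2 i : ℂ) * (z - S.P i 0) = (S.ell (i, 2) z : ℂ) * (S.P i 1 - S.P i 0)
      + (S.ell (i, 0) z : ℂ) * (S.P i 2 - S.P i 0) := by
    have e2 : S.ell (i, 2) z = cr (S.P i 0 - S.P i 2) (z - S.P i 2) := rfl
    have e0 : S.ell (i, 0) z = cr (S.P i 1 - S.P i 0) (z - S.P i 0) := rfl
    rw [e2, e0]
    apply Complex.ext
    · simp only [Surf.area2, cr, Complex.sub_re, Complex.sub_im, Complex.add_re,
        Complex.re_ofReal_mul]
      ring
    · simp only [Surf.area2, cr, Complex.sub_re, Complex.sub_im,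
        Complex.add_im, Complex.im_ofReal_mul]
      ring
  have n1 : ‖S.P i 1 - S.P i 0‖ ≤ K := hT.edge (i, 0)
  have n2 : ‖S.P i 2 - S.P i 0‖ ≤ K := by
    rw [norm_sub_rev]
    exact hT.edge (i, 2)
  apply mem_sq_of_norm_le
  have hn : S.area2 i * ‖z - S.P i 0‖ ≤ S.area2 i * K := by
    calc S.area2 i * ‖z - S.P i 0‖ = ‖(S.area2 i : ℂ) * (z - S.P i 0)‖ := by
          rw [norm_mul, Complex.norm_real, Real.norm_of_nonneg harea.le]
      _ ≤ ‖(S.ell (i, 2) z : ℂ) * (S.P i 1 - S.P i 0)‖
          + ‖(S.ell (i, 0) z : ℂ) * (S.P i 2 - S.P i 0)‖ := by rw [key]; exact norm_add_le _ _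
      _ = S.ell (i, 2) z * ‖S.P i 1 - S.P i 0‖ + S.ell (i, 0) z * ‖S.P i 2 - S.P i 0‖ := by
          rw [norm_mul, norm_mul, Complex.norm_real, Complex.norm_real,
            Real.norm_of_nonneg h2.le, Real.norm_of_nonneg h0.le]
      _ ≤ S.ell (i, 2) z * K + S.ell (i, 0) z * K := by gcongr
      _ ≤ S.area2 i * K := by
          rw [← add_mul]
          have := hT.one
          gcongr
          linarith
  exact le_of_mul_le_mul_left hn harea

/-- the value of `ell` at the centroid -/
theorem ell_cen4 (S : Surf) (i : Fin S.n) (k : Fin 3) : S.ell (i, k) (cen S i) = S.area2 i / 3 := by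
  have h3 : cen S i = ((1 / 3 : ℝ) : ℂ) * (S.P i 0 + S.P i 1 + S.P i 2) := by
    unfold cen
    push_cast
    ring
  rw [h3]
  fin_cases k
  · change cr (S.P i 1 - S.P i 0) (_ - S.P i 0) = _
    simp only [Surf.area2, cr, Complex.sub_re, Complex.sub_im, Complex.add_re,
        Complex.add_im, Complex.re_ofReal_mul, Complex.im_ofReal_mul]
    ring
  · change cr (S.P i 2 - S.P i 1) (_ - S.P i 1) = _
    simp only [Surf.area2, cr, Complex.sub_re, Complex.sub_im, Complex.add_re,
        Complex.add_im, Complex.re_ofReal_mul, Complex.im_ofReal_mul]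
    ring
  · change cr (S.P i 0 - S.P i 2) (_ - S.P i 2) = _
    simp only [Surf.area2, cr, Complex.sub_re, Complex.sub_im, Complex.add_re,
        Complex.add_im, Complex.re_ofReal_mul, Complex.im_ofReal_mul]
    ring

theorem Tame.volume_tri_diff_core {S : Surf} {K : ℝ} (hT : Tame S K) (i : Fin S.n) {δ : ℝ}
    (hδ : 0 ≤ δ) : volume (tri (S.P i) \ core S δ i) ≤ ENNReal.ofReal (24 * K ^ 3 * δ) := by
  have hK : 1 ≤ K := hT.one
  have hK0 : 0 < K := by linarith
  have hsub := hT.tri_subset_sqr i
  have hvt : volume (tri (S.P i)) ≤ ENNReal.ofReal (4 * K ^ 2) := by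
    rw [← volume_sq (S.P i 0) hK0.le]
    exact measure_mono hsub
  have hfin : volume (tri (S.P i)) ≠ ⊤ := ne_top_of_le_ne_top ENNReal.ofReal_ne_top hvt
  set v : ℝ := (volume : Measure ℂ).real (tri (S.P i)) with hv
  have hv0 : 0 ≤ v := measureReal_nonneg
  have hv4 : v ≤ 4 * K ^ 2 := by
    rw [hv, Measure.real]
    exact ENNReal.toReal_le_of_le_ofReal (by positivity) hvt
  have hcm : MeasurableSet (core S δ i) := (isClosed_core S δ i).measurableSet
  have hsplit : (volume : Measure ℂ).real (tri (S.P i) ∩ core S δ i)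
      + (volume : Measure ℂ).real (tri (S.P i) \ core S δ i) = v :=
    measureReal_inter_add_sdiff hcm hfin
  have hfin2 : volume (tri (S.P i) \ core S δ i) ≠ ⊤ :=
    ne_top_of_le_ne_top hfin (measure_mono sdiff_subset)
  have goal : (volume : Measure ℂ).real (tri (S.P i) \ core S δ i) ≤ 24 * K ^ 3 * δ := by
    set l : ℝ := 3 * K * δ with hl
    have hl0 : 0 ≤ l := by positivity
    by_cases hl1 : l < 1
    · have himg : (AffineMap.homothety (cen S i) (1 - l)) '' (tri (S.P i))
          ⊆ tri (S.P i) ∩ core S δ i := by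
        rintro _ ⟨z, hz, rfl⟩
        have hz' := (S.mem_tri).1 hz
        have hell : ∀ k, S.ell (i, k) (AffineMap.homothety (cen S i) (1 - l) z)
            = (1 - l) * S.ell (i, k) z + l * (S.area2 i / 3) := by
          intro k
          have h1 : AffineMap.homothety (cen S i) (1 - l) z
              = cen S i + ((1 - l : ℝ) : ℂ) * (z - cen S i) := by
            rw [AffineMap.homothety_apply, vsub_eq_sub, vadd_eq_add, Complex.real_smul, add_comm]
          have h2 := S.ell_add_mul (i, k) (cen S i) (z - cen S i) (1 - l)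
          have h3 := S.ell_add (i, k) (cen S i) (z - cen S i)
          rw [add_sub_cancel] at h3
          rw [h1, h2, ell_cen4]
          rw [ell_cen4] at h3
          rw [h3]
          ring
        have harea := hT.area i
        have hA := S.area2_pos i
        refine ⟨(S.mem_tri).2 fun k => ?_, fun k => ?_⟩
        · rw [hell k]
          have h1 : 0 < (1 - l) * S.ell (i, k) z := mul_pos (by linarith) (hz' k)
          have h2 : 0 ≤ l * (S.area2 i / 3) := by positivity
          linarith
        · rw [hell k]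
          have h1 : 0 < (1 - l) * S.ell (i, k) z := mul_pos (by linarith) (hz' k)
          have h2 : δ ≤ l * (S.area2 i / 3) := by
            calc δ = l * ((1 / K) / 3) := by rw [hl]; field_simp
              _ ≤ l * (S.area2 i / 3) := by gcongr
          linarith
      have hvol : (1 - l) ^ 2 * v ≤ (volume : Measure ℂ).real (tri (S.P i) ∩ core S δ i) := by
        have h1 := measureReal_mono himg (ne_top_of_le_ne_top hfin (measure_mono inter_subset_left))
          (μ := (volume : Measure ℂ))
        refine le_trans (le_of_eq ?_) h1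
        rw [Measure.real, Measure.addHaar_image_homothety, Complex.finrank_real_complex,
          ENNReal.toReal_mul, ENNReal.toReal_ofReal (abs_nonneg _), abs_of_nonneg (by positivity)]
        rfl
      have h2 : (volume : Measure ℂ).real (tri (S.P i) \ core S δ i) ≤ 2 * l * v := by
        have h3 := mul_nonneg (sq_nonneg l) hv0
        have h4 : (1 - l) ^ 2 * v = v - 2 * l * v + l ^ 2 * v := by ring
        linarith
      calc _ ≤ 2 * l * v := h2
        _ ≤ 2 * l * (4 * K ^ 2) := by gcongr
        _ = 24 * K ^ 3 * δ := by rw [hl]; ring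
    · push Not at hl1
      have h1 : (volume : Measure ℂ).real (tri (S.P i) \ core S δ i) ≤ v := by
        have := measureReal_nonneg (μ := (volume : Measure ℂ)) (s := tri (S.P i) ∩ core S δ i)
        linarith
      calc _ ≤ v := h1
        _ ≤ 4 * K ^ 2 := hv4
        _ ≤ 8 * K ^ 2 * l := by nlinarith [sq_nonneg K]
        _ = 24 * K ^ 3 * δ := by rw [hl]; ring
  rw [← ENNReal.ofReal_toReal hfin2]
  exact ENNReal.ofReal_le_ofReal goal

theorem Tame.volume_compl_core {S : Surf} {K : ℝ} (hT : Tame S K) {δ : ℝ} (hδ : 0 ≤ δ) :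
    S.μ (⋃ i, core S δ i)ᶜ ≤ ENNReal.ofReal (24 * S.n * K ^ 3 * δ) := by
  have hK : 1 ≤ K := hT.one
  rw [Surf.μ, Measure.restrict_apply' S.measurableSet_D]
  have hsub : (⋃ i, core S δ i)ᶜ ∩ S.D ⊆ ⋃ i, (tri (S.P i) \ core S δ i) := by
    rintro x ⟨hx, hD⟩
    obtain ⟨i, hi⟩ := mem_iUnion.1 hD
    refine mem_iUnion.2 ⟨i, hi, fun hc => hx (mem_iUnion.2 ⟨i, hc⟩)⟩
  calc volume ((⋃ i, core S δ i)ᶜ ∩ S.D) ≤ volume (⋃ i, (tri (S.P i) \ core S δ i)) :=
        measure_mono hsub
    _ ≤ ∑ i, volume (tri (S.P i) \ core S δ i) := measure_iUnion_fintype_le _ _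
    _ ≤ ∑ _i : Fin S.n, ENNReal.ofReal (24 * K ^ 3 * δ) :=
        Finset.sum_le_sum fun i _ => hT.volume_tri_diff_core i hδ
    _ = ENNReal.ofReal (24 * S.n * K ^ 3 * δ) := by
        rw [Finset.sum_const, Finset.card_univ, Fintype.card_fin, nsmul_eq_mul,
          ← ENNReal.ofReal_natCast, ← ENNReal.ofReal_mul (by positivity)]
        congr 1
        ring

end Pool.Agent.Helper64.TF
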