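import Pool.Agent.Helper87.LS.AeS

/-!
# MP_e98778_an (full), part I5: almost eigenfunctions on a tame surface

Base definitions of part I5 (closeness). `S : Surf` plays the role of the renormalised surface
`Y` of the plan; `w` is an almost eigenfunction of the horizontal and vertical motions of `S`:
horizontal moves (almost) fix `w`, a vertical move by `t` multiplies `w` by `exp (i c t)`.
-/

open MeasureTheory Set
open scoped ENNReal
open Pool.Agent.Helper87.LS

namespace Pool.Agent.Helper64.TF

/-- All edges are at most `K`, twice the area of every triangle is at least `1 / K`. -/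
structure Tame (S : Surf) (K : ℝ) : Prop where
  one : 1 ≤ K
  edge : ∀ e, ‖S.vec e‖ ≤ K
  area : ∀ i, 1 / K ≤ S.area2 i

/-- The surface is connected (as a graph of triangles). -/
def Conn (S : Surf) : Prop :=
  ∀ s : Set (Fin S.n), s.Nonempty → (∀ i ∈ s, ∀ k, (S.glue (i, k)).1 ∈ s) → s = univ

/-- The closed square with centre `z` and half side `s`. -/
def Sqr (z : ℂ) (s : ℝ) : Set ℂ := {x | |x.re - z.re| ≤ s ∧ |x.im - z.im| ≤ s}

/-- The core of the triangle `i` at depth `δ` (in terms of the functions `ell`). -/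
def core (S : Surf) (δ : ℝ) (i : Fin S.n) : Set ℂ := {z | ∀ k, δ ≤ S.ell (i, k) z}

/-- The centroid of the triangle `i`. -/
noncomputable def cen (S : Surf) (i : Fin S.n) : ℂ := (S.P i 0 + S.P i 1 + S.P i 2) / 3

/-- The midpoint of the edge `e`. -/
noncomputable def mid (S : Surf) (e : Fin S.n × Fin 3) : ℂ :=
  (S.P e.1 e.2 + S.P e.1 (e.2 + 1)) / 2

variable {V : Type*} [NormedAddCommGroup V] [InnerProductSpace ℂ V]

/-- The total mass of `w`. -/
noncomputable def mass (S : Surf) (w : ℂ → V) : ℝ≥0∞ := ∫⁻ x, ‖w x‖ₑ ^ 2 ∂S.μ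

/-- `exp (i θ)`. -/
noncomputable def ex (θ : ℝ) : ℂ := Complex.exp ((θ : ℂ) * Complex.I)

/-- `w` is almost invariant under horizontal moves and an almost eigenfunction with frequency `c`
of the vertical moves, in the mean over all moves of length at most one. (The inner integrals
need not be measurable functions of `h`, `t`: lower integrals.) -/
structure AlmostEig (S : Surf) (c κ : ℝ) (w : ℂ → V) : Prop where
  meas : StronglyMeasurable w
  hor : ∫⁻ h in Icc (-1 : ℝ) 1, ∫⁻ x, ‖w (S.F (h : ℂ) x) - w x‖ₑ ^ 2 ∂S.μ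
    ≤ ENNReal.ofReal (κ ^ 2) * mass S w
  ver : ∫⁻ t in Icc (-1 : ℝ) 1, ∫⁻ x, ‖w (S.F ((t : ℂ) * Complex.I) x) - ex (c * t) • w x‖ₑ ^ 2
    ∂S.μ ≤ ENNReal.ofReal (κ ^ 2) * mass S w

/-- The untwisted function `exp (- i c y) w`. -/
noncomputable def tw (c : ℝ) (w : ℂ → V) (z : ℂ) : V := ex (-(c * z.im)) • w z

open Classical in
/-- The untwisted function in the development of the two triangles at the edge `e`. -/
noncomputable def edgeFun (S : Surf) (c : ℝ) (w : ℂ → V) (e : Fin S.n × Fin 3) (z : ℂ) : V :=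
  ex (-(c * z.im)) • (if 0 < S.ell e z then w z else w (z + S.shift e))

/-- `a` is an approximate value of `f` on `Q`, up to `ε`. -/
def Val (f : ℂ → V) (Q : Set ℂ) (ε : ℝ≥0∞) (a : V) : Prop := ∫⁻ x in Q, ‖f x - a‖ₑ ^ 2 ≤ ε

/-- Turning around a vertex: the next corner (corners = edges = pairs `(i, k)`). -/
def turn (S : Surf) (e : Fin S.n × Fin 3) : Fin S.n × Fin 3 :=
  ((S.glue e).1, (S.glue e).2 + 1)

end Pool.Agent.Helper64.TF
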