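import Pool.Agent.Helper64.TF.Patch

/-!
# TF-I5-E1: points and squares near the middle of an edge (helper64)
-/

open MeasureTheory Set
open scoped ENNReal
open Pool.Agent.Helper87.LS

namespace Pool.Agent.Helper64.TF

theorem fin3_12 (k : Fin 3) : k + 1 + 2 = k := by revert k; decide
theorem fin3_22 (k : Fin 3) : k + 2 + 2 = k + 1 := by revert k; decide
theorem fin3_21 (k : Fin 3) : k + 2 + 1 = k := by revert k; decide
theorem fin3_11 (k : Fin 3) : k + 1 + 1 = k + 2 := by revert k; decide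

variable (S : Surf)

theorem ell_self_zero (i : Fin S.n) (k : Fin 3) : S.ell (i, k) (S.P i k) = 0 := by
  simp [Surf.ell, cr]

theorem ell_succ_zero (i : Fin S.n) (k : Fin 3) : S.ell (i, k) (S.P i (k + 1)) = 0 := by
  simp only [Surf.ell, Surf.vec, cr_self]

theorem ell_opp_area (i : Fin S.n) (k : Fin 3) : S.ell (i, k) (S.P i (k + 2)) = S.area2 i := by
  rw [S.area2_eq46 i k]
  rfl

theorem ell_comb (e : Fin S.n × Fin 3) (x y : ℂ) {a b : ℝ} (hab : a + b = 1) :
    S.ell e ((a : ℂ) * x + (b : ℂ) * y) = a * S.ell e x + b * S.ell e y := by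
  unfold Surf.ell cr
  simp only [Complex.add_re, Complex.add_im, Complex.sub_re, Complex.sub_im,
    Complex.re_ofReal_mul, Complex.im_ofReal_mul]
  linear_combination (((S.vec e).re * (S.P e.1 e.2).im)
    + -((S.vec e).im * (S.P e.1 e.2).re)) * hab

theorem ell_mid_self (i : Fin S.n) (k : Fin 3) : S.ell (i, k) (mid S (i, k)) = 0 := by
  have h : mid S (i, k) = ((1 / 2 : ℝ) : ℂ) * S.P i k + ((1 / 2 : ℝ) : ℂ) * S.P i (k + 1) := by
    unfold mid; push_cast; ring
  rw [h, ell_comb S _ _ _ (by norm_num), ell_self_zero, ell_succ_zero]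
  ring

theorem ell_mid_one (i : Fin S.n) (k : Fin 3) :
    S.ell (i, k + 1) (mid S (i, k)) = S.area2 i / 2 := by
  have h : mid S (i, k) = ((1 / 2 : ℝ) : ℂ) * S.P i k + ((1 / 2 : ℝ) : ℂ) * S.P i (k + 1) := by
    unfold mid; push_cast; ring
  have h3 := fin3_12 k
  have h1 := ell_opp_area S i (k + 1)
  rw [h3] at h1
  rw [h, ell_comb S _ _ _ (by norm_num), ell_self_zero, h1]
  ring

theorem ell_mid_two (i : Fin S.n) (k : Fin 3) :
    S.ell (i, k + 2) (mid S (i, k)) = S.area2 i / 2 := by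
  have h : mid S (i, k) = ((1 / 2 : ℝ) : ℂ) * S.P i k + ((1 / 2 : ℝ) : ℂ) * S.P i (k + 1) := by
    unfold mid; push_cast; ring
  have h3 := fin3_22 k
  have h4 := fin3_21 k
  have h1 := ell_opp_area S i (k + 2)
  have h2 := ell_succ_zero S i (k + 2)
  rw [h3] at h1
  rw [h4] at h2
  rw [h, ell_comb S _ _ _ (by norm_num), h1, h2]
  ring

/-- All three functions at the centroid are a third of the area. -/
theorem ell_cen (i : Fin S.n) (k : Fin 3) : S.ell (i, k) (cen S i) = S.area2 i / 3 := by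
  have h : cen S i = ((2 / 3 : ℝ) : ℂ) * mid S (i, k) + ((1 / 3 : ℝ) : ℂ) * S.P i (k + 2) := by
    unfold mid cen
    have : S.P i 0 + S.P i 1 + S.P i 2 = S.P i k + S.P i (k + 1) + S.P i (k + 2) := by
      revert k
      intro k
      fin_cases k
      · rfl
      · have e1 : (1 : Fin 3) + 1 = 2 := rfl
        have e2 : (1 : Fin 3) + 2 = 0 := rfl
        simp only [Fin.mk_one, e1, e2]
        ring
      · have e1 : (2 : Fin 3) + 1 = 0 := rfl
        have e2 : (2 : Fin 3) + 2 = 1 := rfl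
        simp only [Fin.reduceFinMk, e1, e2]
        ring
    rw [this]
    push_cast
    ring
  rw [h, ell_comb S _ _ _ (by norm_num), ell_mid_self, ell_opp_area]
  ring

/-- A point of the triangle near the middle of the edge. -/
noncomputable def near (S : Surf) (K : ℝ) (e : Fin S.n × Fin 3) : ℂ :=
  ((1 - 1 / (8 * K ^ 3) : ℝ) : ℂ) * mid S e + ((1 / (8 * K ^ 3) : ℝ) : ℂ) * S.P e.1 (e.2 + 2)

variable {S} {K : ℝ} (hT : Tame S K)
include hT

theorem Tame.K_pos : 0 < K := lt_of_lt_of_le one_pos hT.one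

theorem Tame.cen_mem (i : Fin S.n) : cen S i ∈ core S (1 / (8 * K ^ 4)) i := by
  intro k
  rw [ell_cen]
  have hK := hT.K_pos
  have h1 := hT.area i
  have h2 : 1 / (8 * K ^ 4) ≤ 1 / K / 3 := by
    rw [div_div]
    apply one_div_le_one_div_of_le (by positivity)
    have : K ^ 4 = K * K ^ 3 := by ring
    have h3 : 1 ≤ K ^ 3 := one_le_pow₀ hT.one
    nlinarith
  linarith

theorem Tame.near_mem (e : Fin S.n × Fin 3) : near S K e ∈ core S (1 / (8 * K ^ 4)) e.1 := by
  obtain ⟨i, k⟩ := e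
  have hK := hT.K_pos
  have h1 := hT.area i
  have hK3 : 1 ≤ K ^ 3 := one_le_pow₀ hT.one
  set τ : ℝ := 1 / (8 * K ^ 3) with hτ
  have hτ0 : 0 < τ := by positivity
  have hτ1 : τ ≤ 1 / 8 := by
    rw [hτ]
    apply one_div_le_one_div_of_le (by norm_num)
    linarith
  have hkey : 1 / (8 * K ^ 4) = τ * (1 / K) := by
    rw [hτ]; field_simp
  have hA : 0 < 1 / K := by positivity
  intro j
  have hj : j = k ∨ j = k + 1 ∨ j = k + 2 := by
    revert j k; decide
  rw [near, ell_comb S _ _ _ (by ring), hkey]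
  rcases hj with rfl | rfl | rfl
  · rw [ell_mid_self, ell_opp_area]
    nlinarith
  · have h2 := ell_succ_zero S i (k + 1)
    have h3 := fin3_11 k
    rw [h3] at h2
    simp only [h2]
    rw [ell_mid_one]
    nlinarith
  · simp only [ell_self_zero]
    rw [ell_mid_two]
    nlinarith

theorem Tame.near_sub_mid (e : Fin S.n × Fin 3) : ‖near S K e - mid S e‖ ≤ 1 / (8 * K ^ 2) := by
  obtain ⟨i, k⟩ := e
  have hK := hT.K_pos
  have h1 : near S K (i, k) - mid S (i, k) = ((1 / (8 * K ^ 3) : ℝ) : ℂ) *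
      (((1 / 2 : ℝ) : ℂ) * (-S.vec (i, k + 2)) + ((1 / 2 : ℝ) : ℂ) * S.vec (i, k + 1)) := by
    have h3 := fin3_21 k
    have h4 := fin3_11 k
    simp only [near, mid, Surf.vec, h3, h4]
    push_cast
    ring
  rw [h1, norm_mul, Complex.norm_real, Real.norm_of_nonneg (by positivity)]
  have h2 : ‖((1 / 2 : ℝ) : ℂ) * (-S.vec (i, k + 2)) + ((1 / 2 : ℝ) : ℂ) * S.vec (i, k + 1)‖ ≤ K := by
    refine (norm_add_le _ _).trans ?_
    rw [norm_mul, norm_mul, Complex.norm_real, Real.norm_of_nonneg (by norm_num), norm_neg]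
    have := hT.edge (i, k + 2)
    have := hT.edge (i, k + 1)
    linarith
  calc 1 / (8 * K ^ 3) * ‖((1 / 2 : ℝ) : ℂ) * (-S.vec (i, k + 2)) + ((1 / 2 : ℝ) : ℂ) * S.vec (i, k + 1)‖
      ≤ 1 / (8 * K ^ 3) * K := mul_le_mul_of_nonneg_left h2 (by positivity)
    _ = 1 / (8 * K ^ 2) := by field_simp

omit hT in
theorem mid_glue (e : Fin S.n × Fin 3) : mid S (S.glue e) = mid S e + S.shift e := by
  have h := S.opp e
  unfold mid Surf.shift
  linear_combination h / 2

/-- The big square at the middle of an edge. -/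
theorem Tame.edgeSq (e : Fin S.n × Fin 3) : EdgeSq S e (Sqr (mid S e) (1 / (4 * K ^ 2))) := by
  have hK := hT.K_pos
  have key : ∀ (e' : Fin S.n × Fin 3) (y : ℂ), ‖y - mid S e'‖ < 1 / (2 * K ^ 2) →
      0 < S.ell (e'.1, e'.2 + 1) y ∧ 0 < S.ell (e'.1, e'.2 + 2) y := by
    rintro ⟨i, k⟩ y hy
    have hA := hT.area i
    have h1 := hT.ell_sub (i, k + 1) y (mid S (i, k))
    have h2 := hT.ell_sub (i, k + 2) y (mid S (i, k))
    rw [ell_mid_one] at h1
    rw [ell_mid_two] at h2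
    have h3 : K * ‖y - mid S (i, k)‖ < 1 / K / 2 := by
      calc K * ‖y - mid S (i, k)‖ < K * (1 / (2 * K ^ 2)) := mul_lt_mul_of_pos_left hy hK
        _ = 1 / K / 2 := by field_simp
    rw [abs_le] at h1 h2
    constructor
    · show 0 < S.ell (i, k + 1) y
      linarith [h1.1]
    · show 0 < S.ell (i, k + 2) y
      linarith [h2.1]
  intro x hx
  have h0 : (0 : ℝ) < 1 / (4 * K ^ 2) := by positivity
  have h1 := norm_sub_lt_of_mem_sq h0 hx
  have h2 : 2 * (1 / (4 * K ^ 2)) = 1 / (2 * K ^ 2) := by field_simp; norm_num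
  rw [h2] at h1
  have h3 : ‖(x + S.shift e) - mid S (S.glue e)‖ < 1 / (2 * K ^ 2) := by
    rw [mid_glue, add_sub_add_right_eq_sub]
    exact h1
  exact ⟨(key e x h1).1, (key e x h1).2, (key (S.glue e) _ h3).1, (key (S.glue e) _ h3).2⟩

end Pool.Agent.Helper64.TF
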