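import Pool.Agent.Helper64.TF.EdgeGeo
import Pool.Agent.Helper64.TF.Chain

/-!
# TF-I5-E: the values on neighbouring triangles (helper64)

`s` with `16 K⁵ s ≤ 1`, depth `δ = 2 s K ≤ 1/(8 K⁴)`, `ε₀ = (2/s) κ² M`.
-/

open MeasureTheory Set
open scoped ENNReal
open Pool.Agent.Helper87.LS

namespace Pool.Agent.Helper64.TF

variable {V : Type*} [NormedAddCommGroup V] [InnerProductSpace ℂ V]

theorem core_anti {S : Surf} {δ δ' : ℝ} (h : δ ≤ δ') (i : Fin S.n) : core S δ' i ⊆ core S δ i :=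
  fun _ hz k => h.trans (hz k)

theorem s_le_one {K s : ℝ} (hK : 1 ≤ K) (hs : 0 < s) (hsK : 16 * K ^ 5 * s ≤ 1) : 16 * s ≤ 1 := by
  have h5 : 1 ≤ K ^ 5 := one_le_pow₀ hK
  nlinarith

theorem depth_le {K s : ℝ} (hK : 1 ≤ K) (hsK : 16 * K ^ 5 * s ≤ 1) :
    2 * s * K ≤ 1 / (8 * K ^ 4) := by
  have hK0 : 0 < K := lt_of_lt_of_le one_pos hK
  rw [le_div_iff₀ (by positivity)]
  calc 2 * s * K * (8 * K ^ 4) = 16 * K ^ 5 * s := by ring
    _ ≤ 1 := hsK

theorem eps_conv {s κ M : ℝ} (hs : 0 < s) (hM : 0 < M) {m : ℝ≥0∞} (hm : m = ENNReal.ofReal M) :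
    ENNReal.ofReal (2 / s) * (ENNReal.ofReal (κ ^ 2) * m) = ENNReal.ofReal (2 / s * κ ^ 2 * M) := by
  rw [hm, ← ENNReal.ofReal_mul (by positivity), ← ENNReal.ofReal_mul (by positivity), mul_assoc]

theorem exists_val_core {S : Surf} {K : ℝ} (hT : Tame S K) {c κ : ℝ} {w : ℂ → V}
    (hw : AlmostEig S c κ w) {M : ℝ} (hM : 0 < M) (hm : mass S w = ENNReal.ofReal M)
    {s : ℝ} (hs : 0 < s) (hsK : 16 * K ^ 5 * s ≤ 1) {i : Fin S.n} {z : ℂ}
    (hz : z ∈ core S (2 * s * K) i) :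
    ∃ a : V, Val (tw c w) (Sqr z s) (ENNReal.ofReal (2 / s * κ ^ 2 * M)) a := by
  have h1 := s_le_one hT.one hs hsK
  obtain ⟨a, ha⟩ := tri_patch hw hs (by linarith) (hT.sq_subset_tri hs le_rfl hz)
  rw [eps_conv hs hM hm] at ha
  exact ⟨a, ha⟩

theorem sqrt_eps_le {s κ M : ℝ} (hs : 0 < s) (hs1 : s ≤ 1) (hκ : 0 ≤ κ) (hM : 0 < M) :
    √(2 / s * κ ^ 2 * M) ≤ 2 / s * (κ * √M) := by
  rw [Real.sqrt_le_left (by positivity)]
  have h1 : (2 / s * (κ * √M)) ^ 2 = 4 / s ^ 2 * κ ^ 2 * M := by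
    rw [mul_pow, mul_pow, Real.sq_sqrt hM.le, div_pow]
    ring
  rw [h1]
  have h2 : 2 / s ≤ 4 / s ^ 2 := by
    rw [div_le_div_iff₀ hs (by positivity)]
    nlinarith
  have h3 : 0 ≤ κ ^ 2 * M := by positivity
  nlinarith

theorem tri_chain {S : Surf} {K : ℝ} (hT : Tame S K) {c κ : ℝ} {w : ℂ → V}
    (hw : AlmostEig S c κ w) (hκ : 0 ≤ κ) {M : ℝ} (hM : 0 < M) (hm : mass S w = ENNReal.ofReal M)
    {s : ℝ} (hs : 0 < s) (hsK : 16 * K ^ 5 * s ≤ 1) (hsub : ∀ i, tri (S.P i) ⊆ Sqr (S.P i 0) K)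
    {i : Fin S.n} {z z' : ℂ}
    (hz : z ∈ core S (2 * s * K) i) (hz' : z' ∈ core S (2 * s * K) i) {a a' : V}
    (ha : Val (tw c w) (Sqr z s) (ENNReal.ofReal (2 / s * κ ^ 2 * M)) a)
    (ha' : Val (tw c w) (Sqr z' s) (ENNReal.ofReal (2 / s * κ ^ 2 * M)) a') :
    ‖a - a'‖ ≤ 24 * K / s ^ 3 * (κ * √M) := by
  have hK := hT.K_pos
  have hs1 := s_le_one hT.one hs hsK
  have hδ : 0 < 2 * s * K := by positivity
  have hzt := hsub i (core_subset_tri S hδ i hz)
  have hzt' := hsub i (core_subset_tri S hδ i hz')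
  have hdist : ‖z' - z‖ ≤ 4 * K := by
    have h1 := Complex.norm_le_abs_re_add_abs_im (z' - z)
    obtain ⟨h2, h3⟩ := hzt
    obtain ⟨h4, h5⟩ := hzt'
    rw [abs_le] at h2 h3 h4 h5
    have h6 : |(z' - z).re| ≤ 2 * K := by
      rw [Complex.sub_re, abs_le]; constructor <;> linarith [h2.1, h2.2, h4.1, h4.2]
    have h7 : |(z' - z).im| ≤ 2 * K := by
      rw [Complex.sub_im, abs_le]; constructor <;> linarith [h3.1, h3.2, h5.1, h5.2]
    linarith
  set N : ℕ := ⌈4 * K / s⌉₊ with hN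
  have hN1 : 4 * K / s ≤ N := Nat.le_ceil _
  have hN2 : (N : ℝ) < 4 * K / s + 1 := Nat.ceil_lt_add_one (by positivity)
  have hNs : ‖z' - z‖ ≤ N * s := by
    rw [div_le_iff₀ hs] at hN1
    linarith
  have hε : 0 ≤ 2 / s * κ ^ 2 * M := by positivity
  have hseg : ∀ x ∈ segment ℝ z z', ∃ a : V,
      Val (tw c w) (Sqr x s) (ENNReal.ofReal (2 / s * κ ^ 2 * M)) a := fun x hx =>
    exists_val_core hT hw hM hm hs hsK ((convex_core S _ i).segment_subset hz hz' hx)
  have h := chain (continuous_tw hw.meas) hs hε hNs hseg ha ha'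
  refine h.trans ?_
  have h1 := sqrt_eps_le hs (by linarith) hκ hM
  have h2 : (N : ℝ) + 1 ≤ 6 * K / s := by
    have h3 : 2 ≤ 2 * K / s := by
      rw [le_div_iff₀ hs]
      nlinarith [hT.one]
    have h4 : 6 * K / s = 4 * K / s + 2 * K / s := by ring
    linarith
  calc ((N : ℝ) + 1) * (2 * √(2 / s * κ ^ 2 * M) / s)
      ≤ (6 * K / s) * (2 * (2 / s * (κ * √M)) / s) := by gcongr
    _ = 24 * K / s ^ 3 * (κ * √M) := by field_simp; ring

/-- Values of the function of an edge on its left side. -/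
theorem edge_left {S : Surf} {K : ℝ} {c : ℝ} {w : ℂ → V} (e : Fin S.n × Fin 3)
    {Q : Set ℂ} (hQm : MeasurableSet Q) (hQ : ∀ x ∈ Q, 0 < S.ell e x) {ε : ℝ≥0∞} {a : V}
    (ha : Val (tw c w) Q ε a) : Val (edgeFun S c w e) Q ε a := by
  unfold Val at ha ⊢
  rw [setLIntegral_congr_fun hQm (g := fun x => ‖tw c w x - a‖ₑ ^ 2)]
  · exact ha
  · intro x hx
    simp only [edgeFun, tw, if_pos (hQ x hx)]

/-- Values of the function of an edge on its right side. -/
theorem edge_right {S : Surf} {c : ℝ} {w : ℂ → V} (e : Fin S.n × Fin 3)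
    {z : ℂ} {s : ℝ} (hQ : ∀ x ∈ Sqr z s, 0 < S.ell (S.glue e) x) {ε : ℝ≥0∞} {a : V}
    (ha : Val (tw c w) (Sqr z s) ε a) :
    Val (edgeFun S c w e) (Sqr (z - S.shift e) s) ε (ex (c * (S.shift e).im) • a) := by
  unfold Val at ha ⊢
  have h1 : ∀ x ∈ Sqr (z - S.shift e) s,
      ‖edgeFun S c w e x - ex (c * (S.shift e).im) • a‖ₑ ^ 2
        = ‖tw c w (x + S.shift e) - a‖ₑ ^ 2 := by
    intro x hx
    have hx' : x + S.shift e ∈ Sqr z s := by
      obtain ⟨h2, h3⟩ := hx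
      refine ⟨?_, ?_⟩
      · rw [Complex.sub_re] at h2
        rw [Complex.add_re]
        rw [show x.re + (S.shift e).re - z.re = x.re - (z.re - (S.shift e).re) by ring]
        exact h2
      · rw [Complex.sub_im] at h3
        rw [Complex.add_im]
        rw [show x.im + (S.shift e).im - z.im = x.im - (z.im - (S.shift e).im) by ring]
        exact h3
    have h4 : ¬ 0 < S.ell e x := by
      have h5 := hQ _ hx'
      rw [S.ell_glue] at h5
      linarith
    have h6 : edgeFun S c w e x = ex (c * (S.shift e).im) • tw c w (x + S.shift e) := by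
      simp only [edgeFun, tw, if_neg h4, smul_smul, ← ex_add]
      congr 2
      rw [Complex.add_im]
      ring
    rw [h6, ← smul_sub, enorm_smul]
    have h7 : ‖ex (c * (S.shift e).im)‖ₑ = 1 := by
      rw [← ofReal_norm, norm_ex, ENNReal.ofReal_one]
    rw [h7, one_mul]
  rw [setLIntegral_congr_fun (measurableSet_sq _ _) h1]
  have h2 : ∫⁻ x in Sqr (z - S.shift e) s, ‖tw c w (x + S.shift e) - a‖ₑ ^ 2
      = ∫⁻ x in Sqr z s, ‖tw c w x - a‖ₑ ^ 2 := by
    have hpre : Sqr (z - S.shift e) s = (fun x => x + S.shift e) ⁻¹' Sqr z s := by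
      ext x
      simp only [Sqr, mem_setOf_eq, mem_preimage, Complex.add_re, Complex.add_im, Complex.sub_re,
        Complex.sub_im]
      rw [show x.re + (S.shift e).re - z.re = x.re - (z.re - (S.shift e).re) by ring,
        show x.im + (S.shift e).im - z.im = x.im - (z.im - (S.shift e).im) by ring]
    rw [hpre]
    exact (measurePreserving_add_right volume (S.shift e)).setLIntegral_comp_preimage_emb
      (MeasurableEquiv.addRight (S.shift e)).measurableEmbedding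
      (fun x => ‖tw c w x - a‖ₑ ^ 2) (Sqr z s)
  rw [h2]
  exact ha

theorem edge_rel {S : Surf} {K : ℝ} (hT : Tame S K) {c κ : ℝ} {w : ℂ → V}
    (hw : AlmostEig S c κ w) (hκ : 0 ≤ κ) {M : ℝ} (hM : 0 < M) (hm : mass S w = ENNReal.ofReal M)
    {s : ℝ} (hs : 0 < s) (hsK : 16 * K ^ 5 * s ≤ 1) (hsub : ∀ i, tri (S.P i) ⊆ Sqr (S.P i 0) K)
    (e : Fin S.n × Fin 3) {a a' : V}
    (ha : Val (tw c w) (Sqr (cen S e.1) s) (ENNReal.ofReal (2 / s * κ ^ 2 * M)) a)
    (ha' : Val (tw c w) (Sqr (cen S (S.glue e).1) s) (ENNReal.ofReal (2 / s * κ ^ 2 * M)) a') :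
    ‖a - ex (c * (S.shift e).im) • a'‖ ≤ 60 * K / s ^ 3 * (κ * √M) := by
  have hK := hT.K_pos
  have hs1 := s_le_one hT.one hs hsK
  have hd := depth_le hT.one hsK
  have hδ : 0 < 2 * s * K := by positivity
  have hκM : 0 ≤ κ * √M := by positivity
  set r₀ : ℝ := 1 / (4 * K ^ 2) with hr₀
  have hr0 : 0 < r₀ := by positivity
  have hK2 : 1 ≤ K ^ 2 := one_le_pow₀ hT.one
  have hK5 : K ^ 2 ≤ K ^ 5 := pow_le_pow_right₀ hT.one (by norm_num)
  have hr1 : 2 * r₀ ≤ 1 := by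
    rw [hr₀, ← div_eq_mul_one_div, div_le_one (by positivity)]
    linarith
  -- the value on the big square
  obtain ⟨b, hb⟩ := edge_patch (e := e) (z := mid S e) hw hr0 hr1 (hT.edgeSq e)
  have hε1 : ENNReal.ofReal (2 / r₀) * (2 * (ENNReal.ofReal (κ ^ 2) * mass S w))
      = ENNReal.ofReal (16 * K ^ 2 * κ ^ 2 * M) := by
    rw [hm, ← ENNReal.ofReal_mul (by positivity)]
    have h2 : (2 : ℝ≥0∞) = ENNReal.ofReal 2 := by norm_num
    rw [h2, ← ENNReal.ofReal_mul (by positivity), ← ENNReal.ofReal_mul (by positivity)]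
    congr 1
    rw [hr₀]
    field_simp
    ring
  rw [hε1] at hb
  -- small squares near the edge
  have hmem : ∀ e' : Fin S.n × Fin 3, near S K e' ∈ core S (2 * s * K) e'.1 := fun e' =>
    core_anti hd _ (hT.near_mem e')
  have hcen : ∀ i, cen S i ∈ core S (2 * s * K) i := fun i => core_anti hd _ (hT.cen_mem i)
  obtain ⟨a₁, ha₁⟩ := exists_val_core hT hw hM hm hs hsK (hmem e)
  obtain ⟨a₂, ha₂⟩ := exists_val_core hT hw hM hm hs hsK (hmem (S.glue e))
  have h1 := tri_chain hT hw hκ hM hm hs hsK hsub (hcen e.1) (hmem e) ha ha₁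
  have h2 := tri_chain hT hw hκ hM hm hs hsK hsub (hcen (S.glue e).1) (hmem (S.glue e)) ha' ha₂
  have hpos : ∀ e' : Fin S.n × Fin 3, ∀ x ∈ Sqr (near S K e') s, 0 < S.ell e' x := by
    intro e' x hx
    have := hT.sq_subset_tri hs le_rfl (hmem e') hx
    rw [S.mem_tri] at this
    exact this e'.2
  have hb1 : Val (edgeFun S c w e) (Sqr (near S K e) s) (ENNReal.ofReal (2 / s * κ ^ 2 * M)) a₁ :=
    edge_left (K := K) e (measurableSet_sq _ _) (hpos e) ha₁
  have hb2 := edge_right e (hpos (S.glue e)) ha₂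
  -- the small squares lie in the big square
  have hsr : s + 1 / (8 * K ^ 2) ≤ r₀ := by
    have h3 : r₀ = 2 * (1 / (8 * K ^ 2)) := by rw [hr₀]; field_simp; norm_num
    have h4 : s ≤ 1 / (8 * K ^ 2) := by
      rw [le_div_iff₀ (by positivity)]
      nlinarith
    linarith
  have hin : ∀ z : ℂ, ‖z - mid S e‖ ≤ 1 / (8 * K ^ 2) →
      Sqr z s ⊆ Sqr (mid S e) r₀ := by
    intro z hz x hx
    have h3 := Complex.abs_re_le_norm (z - mid S e)
    have h4 := Complex.abs_im_le_norm (z - mid S e)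
    obtain ⟨h5, h6⟩ := hx
    rw [Complex.sub_re] at h3
    rw [Complex.sub_im] at h4
    constructor
    · calc |x.re - (mid S e).re| = |(x.re - z.re) + (z.re - (mid S e).re)| := by ring_nf
        _ ≤ |x.re - z.re| + |z.re - (mid S e).re| := abs_add_le _ _
        _ ≤ r₀ := by linarith
    · calc |x.im - (mid S e).im| = |(x.im - z.im) + (z.im - (mid S e).im)| := by ring_nf
        _ ≤ |x.im - z.im| + |z.im - (mid S e).im| := abs_add_le _ _
        _ ≤ r₀ := by linarith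
  have hin1 := hin _ (hT.near_sub_mid e)
  have hin2 := hin (near S K (S.glue e) - S.shift e) (by
    have h3 := hT.near_sub_mid (S.glue e)
    rw [mid_glue] at h3
    rw [show near S K (S.glue e) - S.shift e - mid S e
      = near S K (S.glue e) - (mid S e + S.shift e) by ring]
    exact h3)
  have hvol : ∀ z : ℂ, Sqr z s ⊆ Sqr (mid S e) r₀ →
      ENNReal.ofReal (s ^ 2) ≤ volume (Sqr z s ∩ Sqr (mid S e) r₀) := by
    intro z hz
    rw [inter_eq_left.mpr hz, volume_sq _ hs.le]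
    apply ENNReal.ofReal_le_ofReal
    nlinarith
  have hmeas : StronglyMeasurable (edgeFun S c w e) := by
    unfold edgeFun
    refine (continuous_ex.comp (by fun_prop :
      Continuous fun z : ℂ => -(c * z.im))).stronglyMeasurable.smul ?_
    refine StronglyMeasurable.ite ?_ hw.meas
      (hw.meas.comp_measurable (measurable_id.add_const _))
    exact measurableSet_lt measurable_const (S.continuous_ell e).measurable
  have hε0 : 0 ≤ 2 / s * κ ^ 2 * M := by positivity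
  have hε2 : 0 ≤ 16 * K ^ 2 * κ ^ 2 * M := by positivity
  have hbound : √(2 * (2 / s * κ ^ 2 * M + 16 * K ^ 2 * κ ^ 2 * M) / s ^ 2)
      ≤ 3 / s ^ 2 * (κ * √M) := by
    rw [Real.sqrt_le_left (by positivity)]
    have h3 : (3 / s ^ 2 * (κ * √M)) ^ 2 = 9 / s ^ 4 * (κ ^ 2 * M) := by
      rw [mul_pow, mul_pow, Real.sq_sqrt hM.le, div_pow]
      ring
    rw [h3]
    have h4 : 2 * (2 / s * κ ^ 2 * M + 16 * K ^ 2 * κ ^ 2 * M) / s ^ 2
        = (2 * (2 / s + 16 * K ^ 2) / s ^ 2) * (κ ^ 2 * M) := by ring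
    rw [h4]
    apply mul_le_mul_of_nonneg_right _ (by positivity)
    have h5 : 16 * K ^ 2 ≤ 1 / s := by
      rw [le_div_iff₀ hs]
      nlinarith
    have h6 : 2 * (2 / s + 16 * K ^ 2) ≤ 6 / s := by
      have : 6 / s = 2 * (2 / s + 1 / s) := by ring
      linarith
    calc 2 * (2 / s + 16 * K ^ 2) / s ^ 2 ≤ 6 / s / s ^ 2 := by gcongr
      _ = 6 * s / s ^ 4 := by field_simp
      _ ≤ 9 / s ^ 4 := by
          gcongr
          linarith
  have h3 : ‖a₁ - b‖ ≤ 3 / s ^ 2 * (κ * √M) :=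
    (val_sub hmeas (measurableSet_sq _ _) (measurableSet_sq _ _) hε0 hε2 (by positivity)
      (hvol _ hin1) hb1 hb).trans hbound
  have h4 : ‖ex (c * (S.shift e).im) • a₂ - b‖ ≤ 3 / s ^ 2 * (κ * √M) :=
    (val_sub hmeas (measurableSet_sq _ _) (measurableSet_sq _ _) hε0 hε2 (by positivity)
      (hvol _ hin2) hb2 hb).trans hbound
  have h5 : a - ex (c * (S.shift e).im) • a' = (a - a₁) + (a₁ - b)
      - (ex (c * (S.shift e).im) • a₂ - b) - ex (c * (S.shift e).im) • (a' - a₂) := by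
    rw [smul_sub]
    abel
  have h6 : ‖ex (c * (S.shift e).im) • (a' - a₂)‖ = ‖a' - a₂‖ := by
    rw [norm_smul, norm_ex, one_mul]
  have h7 : 3 / s ^ 2 ≤ 3 * K / s ^ 3 := by
    rw [div_le_div_iff₀ (by positivity) (by positivity)]
    have h8 : s ^ 3 = s * s ^ 2 := by ring
    have h9 : s ≤ K := by linarith [hT.one]
    have h10 : 0 < s ^ 2 := by positivity
    rw [h8]
    nlinarith
  rw [h5]
  refine (norm_sub_le _ _).trans ?_
  rw [h6]
  have h8 := norm_sub_le ((a - a₁) + (a₁ - b)) (ex (c * (S.shift e).im) • a₂ - b)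
  have h9 := norm_add_le (a - a₁) (a₁ - b)
  have h10 : 3 / s ^ 2 * (κ * √M) ≤ 3 * K / s ^ 3 * (κ * √M) :=
    mul_le_mul_of_nonneg_right h7 hκM
  have h11 : 60 * K / s ^ 3 * (κ * √M) = 2 * (24 * K / s ^ 3 * (κ * √M))
      + 4 * (3 * K / s ^ 3 * (κ * √M)) := by ring
  have h12 : 0 ≤ 3 * K / s ^ 3 * (κ * √M) := by positivity
  rw [h11]
  linarith

end Pool.Agent.Helper64.TF
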