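import Pool.Agent.Helper64.TF.SqVar

/-!
# TF-I5-B2: crossing one glued edge (see the header of `Patch.lean`)
-/

open MeasureTheory Set
open scoped ENNReal
open Pool.Agent.Helper87.LS

namespace Pool.Agent.Helper64.TF

variable {V : Type*} [NormedAddCommGroup V] [InnerProductSpace ℂ V]

/-- On `Q` the only possible sign change is that of `ell e`. -/
def EdgeSq (S : Surf) (e : Fin S.n × Fin 3) (Q : Set ℂ) : Prop :=
  ∀ x ∈ Q, 0 < S.ell (e.1, e.2 + 1) x ∧ 0 < S.ell (e.1, e.2 + 2) x ∧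
    0 < S.ell ((S.glue e).1, (S.glue e).2 + 1) (x + S.shift e) ∧
    0 < S.ell ((S.glue e).1, (S.glue e).2 + 2) (x + S.shift e)

theorem mem_tri_of71 {S : Surf} {i : Fin S.n} {k : Fin 3} {x : ℂ} (h0 : 0 < S.ell (i, k) x)
    (h1 : 0 < S.ell (i, k + 1) x) (h2 : 0 < S.ell (i, k + 2) x) : x ∈ tri (S.P i) := by
  rw [S.mem_tri]
  intro m
  have hm : ∀ k m : Fin 3, m = k ∨ m = k + 1 ∨ m = k + 2 := by decide
  rcases hm k m with rfl | rfl | rfl <;> assumption

open Classical in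
/-- The point of the surface which corresponds to the point `x` of the development. -/
noncomputable def pt71 (S : Surf) (e : Fin S.n × Fin 3) (x : ℂ) : ℂ :=
  if 0 < S.ell e x then x else x + S.shift e

theorem hop_edge71 {S : Surf} {e : Fin S.n × Fin 3} {Q : Set ℂ} (hQ : EdgeSq S e Q)
    (hconv : Convex ℝ Q) {v x : ℂ} (hx : x ∈ Q) (hxv : x + v ∈ Q) (h0 : S.ell e x ≠ 0)
    (h1 : S.ell e (x + v) ≠ 0) : S.Hop v (pt71 S e x) (pt71 S e (x + v)) := by
  obtain ⟨i, k⟩ := e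
  obtain ⟨a1, a2, a3, a4⟩ := hQ x hx
  obtain ⟨b1, b2, b3, b4⟩ := hQ (x + v) hxv
  have hg : ∀ y, S.ell ((S.glue (i, k)).1, (S.glue (i, k)).2) (y + S.shift (i, k)) =
      - S.ell (i, k) y := fun y => S.ell_glue (i, k) y
  have hcross : ∀ r : ℝ, 0 < r → r < 1 → x + (r : ℂ) * v ∈ Q := by
    intro r hr0 hr1
    have := hconv hx hxv (by linarith : (0 : ℝ) ≤ 1 - r) hr0.le (by ring)
    have e1 : (1 - r) • x + r • (x + v) = x + (r : ℂ) * v := by
      simp only [Complex.real_smul]; push_cast; ring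
    rwa [e1] at this
  by_cases p : 0 < S.ell (i, k) x
  · by_cases q : 0 < S.ell (i, k) (x + v)
    · rw [pt71, if_pos p, pt71, if_pos q]
      exact Surf.hop_inside (mem_tri_of71 p a1 a2) (mem_tri_of71 q b1 b2)
    · have q' : S.ell (i, k) (x + v) < 0 := lt_of_le_of_ne (not_lt.1 q) h1
      rw [pt71, if_pos p, pt71, if_neg q]
      have hd : 0 < S.ell (i, k) x - S.ell (i, k) (x + v) := by linarith
      set r : ℝ := S.ell (i, k) x / (S.ell (i, k) x - S.ell (i, k) (x + v)) with hr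
      have hr0 : 0 < r := div_pos p hd
      have hr1 : r < 1 := by rw [hr, div_lt_one hd]; linarith
      have hz : S.ell (i, k) (x + (r : ℂ) * v) = 0 := by
        rw [S.ell_add_mul]
        have h2 := S.ell_add (i, k) x v
        have h3 : cr (S.vec (i, k)) v = -(S.ell (i, k) x - S.ell (i, k) (x + v)) := by linarith
        rw [h3, hr]
        field_simp
        ring
      obtain ⟨c1, c2, -, -⟩ := hQ _ (hcross r hr0 hr1)
      refine ⟨i, mem_tri_of71 p a1 a2, Or.inr ⟨k, ?_, rfl, r, ⟨hr0, hr1⟩, ?_⟩⟩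
      · exact mem_tri_of71 (k := (S.glue (i, k)).2) (by rw [hg]; linarith) b3 b4
      · rw [S.mem_openSegment_iff]
        exact ⟨hz, c1, c2⟩
  · have p' : S.ell (i, k) x < 0 := lt_of_le_of_ne (not_lt.1 p) h0
    have hxt : x + S.shift (i, k) ∈ tri (S.P (S.glue (i, k)).1) :=
      mem_tri_of71 (k := (S.glue (i, k)).2) (by rw [hg]; linarith) a3 a4
    by_cases q : 0 < S.ell (i, k) (x + v)
    · rw [pt71, if_neg p, pt71, if_pos q]
      have hd : 0 < S.ell (i, k) (x + v) - S.ell (i, k) x := by linarith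
      set r : ℝ := -S.ell (i, k) x / (S.ell (i, k) (x + v) - S.ell (i, k) x) with hr
      have hr0 : 0 < r := div_pos (by linarith) hd
      have hr1 : r < 1 := by rw [hr, div_lt_one hd]; linarith
      have hz : S.ell (i, k) (x + (r : ℂ) * v) = 0 := by
        rw [S.ell_add_mul]
        have h2 := S.ell_add (i, k) x v
        have h3 : cr (S.vec (i, k)) v = S.ell (i, k) (x + v) - S.ell (i, k) x := by linarith
        rw [h3, hr]
        field_simp
        ring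
      obtain ⟨-, -, c3, c4⟩ := hQ _ (hcross r hr0 hr1)
      refine ⟨(S.glue (i, k)).1, hxt, Or.inr ⟨(S.glue (i, k)).2, ?_, ?_, r, ⟨hr0, hr1⟩, ?_⟩⟩
      · rw [Prod.mk.eta, S.invol]
        exact mem_tri_of71 q b1 b2
      · rw [Prod.mk.eta, S.shift_glue]
        ring
      · have e2 : x + S.shift (i, k) + (r : ℂ) * v = x + (r : ℂ) * v + S.shift (i, k) := by ring
        rw [e2, S.mem_openSegment_iff]
        refine ⟨?_, c3, c4⟩
        rw [hg, hz, neg_zero]
    · have q' : S.ell (i, k) (x + v) < 0 := lt_of_le_of_ne (not_lt.1 q) h1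
      rw [pt71, if_neg p, pt71, if_neg q]
      have hyt : x + v + S.shift (i, k) ∈ tri (S.P (S.glue (i, k)).1) :=
        mem_tri_of71 (k := (S.glue (i, k)).2) (by rw [hg]; linarith) b3 b4
      have e2 : x + v + S.shift (i, k) = x + S.shift (i, k) + v := by ring
      rw [e2] at hyt ⊢
      exact Surf.hop_inside hxt hyt

theorem edgeFun_eq71 (S : Surf) (c : ℝ) (w : ℂ → V) (e : Fin S.n × Fin 3) (x : ℂ) :
    edgeFun S c w e x = ex (-(c * x.im)) • w (pt71 S e x) := by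
  unfold edgeFun pt71
  split_ifs <;> rfl

theorem pt_mem71 {S : Surf} {e : Fin S.n × Fin 3} {Q : Set ℂ} (hQ : EdgeSq S e Q) {x : ℂ}
    (hx : x ∈ Q) (h0 : S.ell e x ≠ 0) :
    (0 < S.ell e x → x ∈ tri (S.P e.1)) ∧
    (¬ 0 < S.ell e x → x + S.shift e ∈ tri (S.P (S.glue e).1)) := by
  obtain ⟨a1, a2, a3, a4⟩ := hQ x hx
  refine ⟨fun p => mem_tri_of71 (k := e.2) p a1 a2, fun p => ?_⟩
  refine mem_tri_of71 (k := (S.glue e).2) ?_ a3 a4
  have := S.ell_glue e x
  rw [Prod.mk.eta, this]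
  have p' : S.ell e x < 0 := lt_of_le_of_ne (not_lt.1 p) h0
  linarith

/-- The integral over the development is at most twice the integral over the surface. -/
theorem lintegral_pt71 {S : Surf} {e : Fin S.n × Fin 3} {Q : Set ℂ} (hQ : EdgeSq S e Q)
    (g : ℂ → ℝ≥0∞) (G : ℂ → ℝ≥0∞) (A : Set ℂ) (hA : MeasurableSet A) (hAQ : A ⊆ Q)
    (hG : ∀ x ∈ A, S.ell e x ≠ 0 → G x ≤ g (pt71 S e x)) :
    ∫⁻ x in A \ {x | S.ell e x = 0}, G x ≤ 2 * ∫⁻ x, g x ∂S.μ := by
  have hm0 : MeasurableSet {x | S.ell e x = 0} :=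
    (isClosed_eq (S.continuous_ell e) continuous_const).measurableSet
  have hmp : MeasurableSet {x | 0 < S.ell e x} :=
    (isOpen_lt continuous_const (S.continuous_ell e)).measurableSet
  have hsub : A \ {x | S.ell e x = 0} ⊆
      (A ∩ {x | 0 < S.ell e x}) ∪ ((A \ {x | S.ell e x = 0}) \ {x | 0 < S.ell e x}) := by
    rintro x ⟨hxA, hx0⟩
    by_cases p : 0 < S.ell e x
    · exact Or.inl ⟨hxA, p⟩
    · exact Or.inr ⟨⟨hxA, hx0⟩, p⟩
  have h1 : ∫⁻ x in A ∩ {x | 0 < S.ell e x}, G x ≤ ∫⁻ x, g x ∂S.μ := by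
    have hle : ∫⁻ x in A ∩ {x | 0 < S.ell e x}, G x ≤
        ∫⁻ x in A ∩ {x | 0 < S.ell e x}, g x := by
      refine setLIntegral_mono' (hA.inter hmp) ?_
      rintro x ⟨hxA, hxp⟩
      have hxp' : 0 < S.ell e x := hxp
      have := hG x hxA (ne_of_gt hxp')
      rwa [pt71, if_pos hxp'] at this
    refine hle.trans ?_
    refine lintegral_mono_set ?_
    rintro x ⟨hxA, hxp⟩
    exact mem_iUnion.2 ⟨e.1, (pt_mem71 hQ (hAQ hxA) (ne_of_gt hxp)).1 hxp⟩
  have h2 : ∫⁻ x in (A \ {x | S.ell e x = 0}) \ {x | 0 < S.ell e x}, G x ≤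
      ∫⁻ x, g x ∂S.μ := by
    have hmm : MeasurableSet ((A \ {x | S.ell e x = 0}) \ {x | 0 < S.ell e x}) :=
      (hA.diff hm0).diff hmp
    have hle : ∫⁻ x in (A \ {x | S.ell e x = 0}) \ {x | 0 < S.ell e x}, G x ≤
        ∫⁻ x in (A \ {x | S.ell e x = 0}) \ {x | 0 < S.ell e x}, g (x + S.shift e) := by
      refine setLIntegral_mono' hmm ?_
      rintro x ⟨⟨hxA, hx0⟩, hxp⟩
      have hxp' : ¬ 0 < S.ell e x := hxp
      have := hG x hxA hx0
      rwa [pt71, if_neg hxp'] at this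
    refine hle.trans ?_
    have hle2 : ∫⁻ x in (A \ {x | S.ell e x = 0}) \ {x | 0 < S.ell e x}, g (x + S.shift e) ≤
        ∫⁻ x in (fun x => x + S.shift e) ⁻¹' S.D, g (x + S.shift e) := by
      refine lintegral_mono_set ?_
      rintro x ⟨⟨hxA, hx0⟩, hxp⟩
      exact mem_iUnion.2 ⟨(S.glue e).1, (pt_mem71 hQ (hAQ hxA) hx0).2 hxp⟩
    refine hle2.trans (le_of_eq ?_)
    have hmpres : MeasurePreserving (fun x : ℂ => x + S.shift e) volume volume :=
      measurePreserving_add_right volume (S.shift e)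
    have hemb : MeasurableEmbedding (fun x : ℂ => x + S.shift e) :=
      measurableEmbedding_addRight (S.shift e)
    exact hmpres.setLIntegral_comp_preimage_emb hemb g S.D
  calc ∫⁻ x in A \ {x | S.ell e x = 0}, G x
      ≤ ∫⁻ x in (A ∩ {x | 0 < S.ell e x}) ∪
          ((A \ {x | S.ell e x = 0}) \ {x | 0 < S.ell e x}), G x := lintegral_mono_set hsub
    _ ≤ (∫⁻ x in A ∩ {x | 0 < S.ell e x}, G x) +
        (∫⁻ x in (A \ {x | S.ell e x = 0}) \ {x | 0 < S.ell e x}, G x) :=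
        lintegral_union_le _ _ _
    _ ≤ (∫⁻ x, g x ∂S.μ) + (∫⁻ x, g x ∂S.μ) := add_le_add h1 h2
    _ = 2 * ∫⁻ x, g x ∂S.μ := (two_mul _).symm

theorem lintegral_edge71 {S : Surf} {e : Fin S.n × Fin 3} {z : ℂ} {s : ℝ}
    (hQ : EdgeSq S e (Sqr z s)) (v : ℂ) (g : ℂ → ℝ≥0∞) (G : ℂ → ℝ≥0∞)
    (hG : ∀ x ∈ Sqr z s, x + v ∈ Sqr z s → S.ell e x ≠ 0 → S.ell e (x + v) ≠ 0 →
      G x ≤ g (pt71 S e x)) :
    ∫⁻ x in {x | x ∈ Sqr z s ∧ x + v ∈ Sqr z s}, G x ≤ 2 * ∫⁻ x, g x ∂S.μ := by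
  have hmQ := measurableSet_sq z s
  have hmA : MeasurableSet {x | x ∈ Sqr z s ∧ x + v ∈ Sqr z s} :=
    hmQ.inter (measurable_add_const v hmQ)
  have hn1 : volume {x | S.ell e x = 0} = 0 := line_null (S.vec_ne_zero e) _ _
  have hn2 : volume {x | S.ell e (x + v) = 0} = 0 := by
    have h := line_null (S.vec_ne_zero e) (S.P e.1 e.2 - v) 0
    refine (measure_mono_null ?_ h)
    intro x hx
    have hx' : cr (S.vec e) (x + v - S.P e.1 e.2) = 0 := hx
    have e1 : x - (S.P e.1 e.2 - v) = x + v - S.P e.1 e.2 := by ring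
    change cr (S.vec e) (x - (S.P e.1 e.2 - v)) = 0
    rw [e1]; exact hx'
  have hm2 : MeasurableSet {x | S.ell e (x + v) = 0} :=
    (isClosed_eq ((S.continuous_ell e).comp (continuous_add_const v))
      continuous_const).measurableSet
  set A : Set ℂ := {x | x ∈ Sqr z s ∧ x + v ∈ Sqr z s} \ {x | S.ell e (x + v) = 0} with hAdef
  have hA : MeasurableSet A := hmA.diff hm2
  have key := lintegral_pt71 hQ g G A hA (fun x hx => hx.1.1)
    (fun x hx h0 => hG x hx.1.1 hx.1.2 h0 hx.2)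
  refine le_trans ?_ key
  have hae : ({x | x ∈ Sqr z s ∧ x + v ∈ Sqr z s} : Set ℂ) ≤ᵐ[volume]
      (A \ {x | S.ell e x = 0} : Set ℂ) := by
    have h3 : ∀ᵐ x ∂(volume : Measure ℂ), x ∉ {x | S.ell e x = 0} :=
      measure_eq_zero_iff_ae_notMem.1 hn1
    have h4 : ∀ᵐ x ∂(volume : Measure ℂ), x ∉ {x | S.ell e (x + v) = 0} :=
      measure_eq_zero_iff_ae_notMem.1 hn2
    filter_upwards [h3, h4] with x hx1 hx2 hx
    exact ⟨⟨hx, hx2⟩, hx1⟩
  exact lintegral_mono' (Measure.restrict_mono_ae hae) le_rfl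

theorem edge_patch {S : Surf} {c κ : ℝ} {w : ℂ → V} (hw : AlmostEig S c κ w)
    {e : Fin S.n × Fin 3} {z : ℂ} {s : ℝ} (hs : 0 < s) (hs1 : 2 * s ≤ 1)
    (hQ : EdgeSq S e (Sqr z s)) :
    ∃ a : V, Val (edgeFun S c w e) (Sqr z s)
      (ENNReal.ofReal (2 / s) * (2 * (ENNReal.ofReal (κ ^ 2) * mass S w))) a := by
  classical
  have hmeas : StronglyMeasurable (edgeFun S c w e) := by
    have hmp : MeasurableSet {x | 0 < S.ell e x} :=
      (isOpen_lt continuous_const (S.continuous_ell e)).measurableSet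
    have h1 : StronglyMeasurable (fun z : ℂ => w (z + S.shift e)) :=
      hw.meas.comp_measurable (measurable_add_const (S.shift e))
    have h2 : StronglyMeasurable (fun z : ℂ => pt71 S e z) := by
      unfold pt71
      exact StronglyMeasurable.ite hmp stronglyMeasurable_id
        (measurable_add_const (S.shift e)).stronglyMeasurable
    have h3 : StronglyMeasurable (fun z : ℂ => w (pt71 S e z)) :=
      hw.meas.comp_measurable h2.measurable
    have h4 : StronglyMeasurable (fun z : ℂ => ex (-(c * z.im))) :=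
      (continuous_ex.comp (by fun_prop : Continuous fun z : ℂ => -(c * z.im))).stronglyMeasurable
    have h5 : edgeFun S c w e = fun z => ex (-(c * z.im)) • w (pt71 S e z) :=
      funext fun z => edgeFun_eq71 S c w e z
    rw [h5]
    exact h4.smul h3
  have hF : ∀ v x : ℂ, x ∈ Sqr z s → x + v ∈ Sqr z s → S.ell e x ≠ 0 → S.ell e (x + v) ≠ 0 →
      S.F v (pt71 S e x) = pt71 S e (x + v) := fun v x hx hxv h0 h1 =>
    Surf.F_eq (Surf.Straight.hop (hop_edge71 hQ (convex_sq z s) hx hxv h0 h1))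
  refine sq_value _ hmeas z hs hs1 _ ?_ ?_
  · calc ∫⁻ h in Icc (-1 : ℝ) 1, ∫⁻ x in {x | x ∈ Sqr z s ∧ x + (h : ℂ) ∈ Sqr z s},
          ‖edgeFun S c w e (x + (h : ℂ)) - edgeFun S c w e x‖ₑ ^ 2
        ≤ ∫⁻ h in Icc (-1 : ℝ) 1, 2 * ∫⁻ x, ‖w (S.F (h : ℂ) x) - w x‖ₑ ^ 2 ∂S.μ := by
          refine lintegral_mono fun h => ?_
          refine lintegral_edge71 hQ (h : ℂ) (fun x => ‖w (S.F (h : ℂ) x) - w x‖ₑ ^ 2) _ ?_
          intro x hx hxv h0 h1
          rw [edgeFun_eq71, edgeFun_eq71]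
          rw [hF _ x hx hxv h0 h1]
          have e1 : (x + (h : ℂ)).im = x.im := by simp
          rw [e1, ← smul_sub, enorm_smul]
          have e2 : ‖ex (-(c * x.im))‖ₑ = 1 := by
            rw [← ofReal_norm, norm_ex, ENNReal.ofReal_one]
          rw [e2, one_mul]
      _ = 2 * ∫⁻ h in Icc (-1 : ℝ) 1, ∫⁻ x, ‖w (S.F (h : ℂ) x) - w x‖ₑ ^ 2 ∂S.μ :=
          lintegral_const_mul' _ _ (by norm_num)
      _ ≤ 2 * (ENNReal.ofReal (κ ^ 2) * mass S w) := by gcongr; exact hw.hor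
  · calc ∫⁻ t in Icc (-1 : ℝ) 1, ∫⁻ x in {x | x ∈ Sqr z s ∧ x + (t : ℂ) * Complex.I ∈ Sqr z s},
          ‖edgeFun S c w e (x + (t : ℂ) * Complex.I) - edgeFun S c w e x‖ₑ ^ 2
        ≤ ∫⁻ t in Icc (-1 : ℝ) 1, 2 * ∫⁻ x, ‖w (S.F ((t : ℂ) * Complex.I) x) -
            ex (c * t) • w x‖ₑ ^ 2 ∂S.μ := by
          refine lintegral_mono fun t => ?_
          refine lintegral_edge71 hQ ((t : ℂ) * Complex.I)
            (fun x => ‖w (S.F ((t : ℂ) * Complex.I) x) - ex (c * t) • w x‖ₑ ^ 2) _ ?_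
          intro x hx hxv h0 h1
          rw [edgeFun_eq71, edgeFun_eq71]
          rw [hF _ x hx hxv h0 h1]
          have e1 : (x + (t : ℂ) * Complex.I).im = x.im + t := by simp
          have e3 : ex (-(c * x.im)) = ex (-(c * (x.im + t))) * ex (c * t) := by
            rw [← ex_add]; congr 1; ring
          rw [e1, e3, mul_smul, ← smul_sub, enorm_smul]
          have e2 : ‖ex (-(c * (x.im + t)))‖ₑ = 1 := by
            rw [← ofReal_norm, norm_ex, ENNReal.ofReal_one]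
          rw [e2, one_mul]
      _ = 2 * ∫⁻ t in Icc (-1 : ℝ) 1, ∫⁻ x, ‖w (S.F ((t : ℂ) * Complex.I) x) -
            ex (c * t) • w x‖ₑ ^ 2 ∂S.μ := lintegral_const_mul' _ _ (by norm_num)
      _ ≤ 2 * (ENNReal.ofReal (κ ^ 2) * mass S w) := by gcongr; exact hw.ver

end Pool.Agent.Helper64.TF
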