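import Pool.Agent.Helper64.TF.SqVar

/-!
# TF-I5-B1 (`tri_patch`)

`Q = Sqr z s ⊆ tri (S.P i)`. For `x, x + v ∈ Q` we have `Straight v x (x + v)` (`hop_inside`), so
`S.F v x = x + v` (`F_eq`), and the integrals in `sq_value` are at most those in `AlmostEig`.
-/

open MeasureTheory Set
open scoped ENNReal
open Pool.Agent.Helper87.LS

namespace Pool.Agent.Helper64.TF

variable {V : Type*} [NormedAddCommGroup V] [InnerProductSpace ℂ V]

namespace Tri56

theorem tw_meas (c : ℝ) {w : ℂ → V} (hw : StronglyMeasurable w) : StronglyMeasurable (tw c w) := by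
  unfold tw
  refine StronglyMeasurable.smul ?_ hw
  refine Continuous.stronglyMeasurable ?_
  exact continuous_ex.comp (continuous_const.mul Complex.continuous_im).neg

theorem enorm_ex_smul (a : ℝ) (v : V) : ‖ex a • v‖ₑ = ‖v‖ₑ := by
  rw [enorm_smul]
  have h : ‖ex a‖ₑ = 1 := by
    rw [← ofReal_norm, norm_ex, ENNReal.ofReal_one]
  rw [h, one_mul]

theorem tw_hor (c : ℝ) (w : ℂ → V) (x : ℂ) (h : ℝ) :
    ‖tw c w (x + (h : ℂ)) - tw c w x‖ₑ = ‖w (x + (h : ℂ)) - w x‖ₑ := by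
  unfold tw
  have e : (x + (h : ℂ)).im = x.im := by simp
  rw [e, ← smul_sub, enorm_ex_smul]

theorem tw_ver (c : ℝ) (w : ℂ → V) (x : ℂ) (t : ℝ) :
    ‖tw c w (x + (t : ℂ) * Complex.I) - tw c w x‖ₑ =
      ‖w (x + (t : ℂ) * Complex.I) - ex (c * t) • w x‖ₑ := by
  unfold tw
  have e : (x + (t : ℂ) * Complex.I).im = x.im + t := by simp
  have e2 : ex (-(c * x.im)) = ex (-(c * (x.im + t))) * ex (c * t) := by
    rw [← ex_add]
    congr 1
    ring
  rw [e, e2, mul_smul, ← smul_sub, enorm_ex_smul]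

theorem meas_pair (z v : ℂ) (s : ℝ) : MeasurableSet {x | x ∈ Sqr z s ∧ x + v ∈ Sqr z s} :=
  (measurableSet_sq z s).inter
    ((measurableSet_sq z s).preimage (measurable_id.add_const v))

theorem F_inside {S : Surf} {i : Fin S.n} {z v x : ℂ} {s : ℝ} (hQ : Sqr z s ⊆ tri (S.P i))
    (hx : x ∈ Sqr z s) (hy : x + v ∈ Sqr z s) : S.F v x = x + v :=
  Surf.F_eq (Surf.Straight.hop (Surf.hop_inside (hQ hx) (hQ hy)))

theorem inner_le {S : Surf} {i : Fin S.n} {z v : ℂ} {s : ℝ} (hQ : Sqr z s ⊆ tri (S.P i))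
    (f g : ℂ → ℝ≥0∞) (h : ∀ x, x ∈ Sqr z s → x + v ∈ Sqr z s → f x ≤ g x) :
    ∫⁻ x in {x | x ∈ Sqr z s ∧ x + v ∈ Sqr z s}, f x ≤ ∫⁻ x, g x ∂S.μ := by
  refine (setLIntegral_mono' (meas_pair z v s) fun x hx => h x hx.1 hx.2).trans ?_
  unfold Surf.μ
  refine lintegral_mono_set ?_
  intro x hx
  exact mem_iUnion.2 ⟨i, hQ hx.1⟩

end Tri56

open Tri56

theorem tri_patch {S : Surf} {c κ : ℝ} {w : ℂ → V} (hw : AlmostEig S c κ w) {i : Fin S.n} {z : ℂ}
    {s : ℝ} (hs : 0 < s) (hs1 : 2 * s ≤ 1) (hQ : Sqr z s ⊆ tri (S.P i)) :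
    ∃ a : V, Val (tw c w) (Sqr z s)
      (ENNReal.ofReal (2 / s) * (ENNReal.ofReal (κ ^ 2) * mass S w)) a := by
  refine sq_value (tw c w) (tw_meas c hw.meas) z hs hs1 _ ?_ ?_
  · refine le_trans (lintegral_mono fun h => ?_) hw.hor
    refine inner_le hQ _ _ fun x hx hy => ?_
    rw [tw_hor, F_inside hQ hx hy]
  · refine le_trans (lintegral_mono fun t => ?_) hw.ver
    refine inner_le hQ _ _ fun x hx hy => ?_
    rw [tw_ver, F_inside hQ hx hy]

end Pool.Agent.Helper64.TF
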