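import Pool.Agent.Helper64.TF.Defs

/-!
# Elementary facts on squares, `ex` and cores (part I5)
-/

open MeasureTheory Set
open scoped ENNReal
open Pool.Agent.Helper87.LS

namespace Pool.Agent.Helper64.TF

variable {V : Type*} [NormedAddCommGroup V] [InnerProductSpace ℂ V]

theorem ex_add (a b : ℝ) : ex (a + b) = ex a * ex b := by
  unfold ex; rw [← Complex.exp_add]; push_cast; ring_nf

theorem ex_zero : ex 0 = 1 := by simp [ex]

theorem norm_ex (a : ℝ) : ‖ex a‖ = 1 := Complex.norm_exp_ofReal_mul_I a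

theorem ex_ne_zero (a : ℝ) : ex a ≠ 0 := Complex.exp_ne_zero _

theorem ex_neg (a : ℝ) : ex (-a) = (ex a)⁻¹ := by
  unfold ex; rw [← Complex.exp_neg]; push_cast; ring_nf

theorem ex_two_pi_int (m : ℤ) : ex (2 * Real.pi * m) = 1 := by
  unfold ex
  rw [Complex.exp_eq_one_iff]
  exact ⟨m, by push_cast; ring⟩

theorem continuous_ex : Continuous ex := by
  unfold ex; fun_prop

theorem sq_eq (z : ℂ) (s : ℝ) :
    Sqr z s = Icc (z.re - s) (z.re + s) ×ℂ Icc (z.im - s) (z.im + s) := by
  ext x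
  simp only [Sqr, mem_setOf_eq, Complex.mem_reProdIm, mem_Icc, abs_le]
  constructor
  · rintro ⟨⟨h1, h2⟩, h3, h4⟩
    exact ⟨⟨by linarith, by linarith⟩, by linarith, by linarith⟩
  · rintro ⟨⟨h1, h2⟩, h3, h4⟩
    exact ⟨⟨by linarith, by linarith⟩, by linarith, by linarith⟩

theorem isClosed_sq (z : ℂ) (s : ℝ) : IsClosed (Sqr z s) := by
  rw [sq_eq]
  exact (isClosed_Icc.reProdIm isClosed_Icc)

theorem measurableSet_sq (z : ℂ) (s : ℝ) : MeasurableSet (Sqr z s) := (isClosed_sq z s).measurableSet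

theorem mem_sq_comm {x z : ℂ} {s : ℝ} : x ∈ Sqr z s ↔ z ∈ Sqr x s := by
  simp only [Sqr, mem_setOf_eq, abs_sub_comm]

theorem self_mem_sq {z : ℂ} {s : ℝ} (hs : 0 ≤ s) : z ∈ Sqr z s := by
  simp [Sqr, hs]

theorem norm_sub_le_of_mem_sq {x z : ℂ} {s : ℝ} (hx : x ∈ Sqr z s) : ‖x - z‖ ≤ 2 * s := by
  obtain ⟨h1, h2⟩ := hx
  have h := Complex.norm_le_abs_re_add_abs_im (x - z)
  rw [Complex.sub_re, Complex.sub_im] at h
  linarith

theorem norm_sub_lt_of_mem_sq {x z : ℂ} {s : ℝ} (hs : 0 < s) (hx : x ∈ Sqr z s) :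
    ‖x - z‖ < 2 * s := by
  obtain ⟨h1, h2⟩ := hx
  have h3 : ‖x - z‖ ^ 2 ≤ s ^ 2 + s ^ 2 := by
    rw [Complex.sq_norm, Complex.normSq_apply, Complex.sub_re, Complex.sub_im, ← pow_two, ← pow_two]
    have := sq_le_sq' (by linarith [neg_abs_le (x.re - z.re)]) (le_trans (le_abs_self _) h1)
    have := sq_le_sq' (by linarith [neg_abs_le (x.im - z.im)]) (le_trans (le_abs_self _) h2)
    linarith
  by_contra hcon
  push Not at hcon
  nlinarith [norm_nonneg (x - z)]

theorem mem_sq_of_norm_le {x z : ℂ} {s : ℝ} (h : ‖x - z‖ ≤ s) : x ∈ Sqr z s := by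
  refine ⟨?_, ?_⟩
  · have := Complex.abs_re_le_norm (x - z)
    rw [Complex.sub_re] at this
    linarith
  · have := Complex.abs_im_le_norm (x - z)
    rw [Complex.sub_im] at this
    linarith

theorem volume_reProdIm (a b c d : ℝ) :
    volume (Icc a b ×ℂ Icc c d) = ENNReal.ofReal (b - a) * ENNReal.ofReal (d - c) := by
  have h : Icc a b ×ℂ Icc c d = Complex.measurableEquivRealProd ⁻¹' (Icc a b ×ˢ Icc c d) := by
    ext x
    simp only [Complex.mem_reProdIm, mem_Icc, mem_preimage, mem_prod,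
      Complex.measurableEquivRealProd_apply]
  rw [h, Complex.volume_preserving_equiv_real_prod.measure_preimage
    (measurableSet_Icc.prod measurableSet_Icc).nullMeasurableSet,
    Measure.volume_eq_prod, Measure.prod_prod, Real.volume_Icc, Real.volume_Icc]

theorem volume_sq (z : ℂ) {s : ℝ} (hs : 0 ≤ s) : volume (Sqr z s) = ENNReal.ofReal (4 * s ^ 2) := by
  rw [sq_eq, volume_reProdIm, ← ENNReal.ofReal_mul (by linarith)]
  congr 1
  ring

/-- Two squares whose centres are at distance at most `s` overlap in measure at least `s ^ 2`. -/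
theorem volume_sq_inter {x z : ℂ} {s : ℝ} (hs : 0 ≤ s) (h : ‖x - z‖ ≤ s) :
    ENNReal.ofReal (s ^ 2) ≤ volume (Sqr x s ∩ Sqr z s) := by
  have h1 := Complex.abs_re_le_norm (x - z)
  have h2 := Complex.abs_im_le_norm (x - z)
  rw [Complex.sub_re] at h1
  rw [Complex.sub_im] at h2
  have h3 : |x.re - z.re| ≤ s := h1.trans h
  have h4 : |x.im - z.im| ≤ s := h2.trans h
  rw [abs_le] at h3 h4
  have hsub : Sqr ((x + z) / 2) (s / 2) ⊆ Sqr x s ∩ Sqr z s := by
    intro y hy
    obtain ⟨h5, h6⟩ := hy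
    have e1 : ((x + z) / 2).re = (x.re + z.re) / 2 := by simp
    have e2 : ((x + z) / 2).im = (x.im + z.im) / 2 := by simp
    rw [e1, abs_le] at h5
    rw [e2, abs_le] at h6
    refine ⟨⟨?_, ?_⟩, ?_, ?_⟩ <;> rw [abs_le] <;> constructor <;> linarith [h5.1, h5.2, h6.1, h6.2]
  refine le_trans ?_ (measure_mono hsub)
  rw [volume_sq _ (by linarith)]
  apply ENNReal.ofReal_le_ofReal
  nlinarith

theorem convex_sq (z : ℂ) (s : ℝ) : Convex ℝ (Sqr z s) := by
  intro x hx y hy a b ha hb hab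
  obtain ⟨h1, h2⟩ := hx
  obtain ⟨h3, h4⟩ := hy
  have e1 : (a • x + b • y).re - z.re = a * (x.re - z.re) + b * (y.re - z.re) := by
    simp only [Complex.add_re, Complex.real_smul, Complex.re_ofReal_mul]
    linear_combination (z.re) * hab
  have e2 : (a • x + b • y).im - z.im = a * (x.im - z.im) + b * (y.im - z.im) := by
    simp only [Complex.add_im, Complex.real_smul, Complex.im_ofReal_mul]
    linear_combination (z.im) * hab
  rw [abs_le] at h1 h2 h3 h4
  constructor
  · rw [e1, abs_le]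
    constructor <;> nlinarith [h1.1, h1.2, h3.1, h3.2]
  · rw [e2, abs_le]
    constructor <;> nlinarith [h2.1, h2.2, h4.1, h4.2]

variable (S : Surf)

/-- `ell` changes by at most `K` times the distance. -/
theorem Tame.ell_sub {K : ℝ} {S : Surf} (hT : Tame S K) (e : Fin S.n × Fin 3) (x z : ℂ) :
    |S.ell e x - S.ell e z| ≤ K * ‖x - z‖ := by
  have h : S.ell e x - S.ell e z = cr (S.vec e) (x - z) := by
    unfold Surf.ell
    rw [← cr_sub_right]
    congr 1
    ring
  rw [h]
  exact (abs_cr_le _ _).trans (mul_le_mul_of_nonneg_right (hT.edge e) (norm_nonneg _))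

/-- A square around a point of the core lies in the triangle. -/
theorem Tame.sq_subset_tri {K : ℝ} {S : Surf} (hT : Tame S K) {i : Fin S.n} {δ s : ℝ} {z : ℂ}
    (hs : 0 < s) (hsδ : 2 * s * K ≤ δ) (hz : z ∈ core S δ i) : Sqr z s ⊆ tri (S.P i) := by
  intro x hx
  rw [S.mem_tri]
  intro k
  have h1 := hT.ell_sub (i, k) x z
  have h2 := norm_sub_lt_of_mem_sq hs hx
  have h3 := hz k
  have hK : 0 < K := lt_of_lt_of_le one_pos hT.one
  have h4 : K * ‖x - z‖ < K * (2 * s) := mul_lt_mul_of_pos_left h2 hK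
  rw [abs_le] at h1
  nlinarith [h1.1]

/-- A square around a point of the core of depth `2 δ` lies in the core of depth `δ`. -/
theorem Tame.sq_subset_core {K : ℝ} {S : Surf} (hT : Tame S K) {i : Fin S.n} {δ s : ℝ} {z : ℂ}
    (hsδ : 2 * s * K ≤ δ) (hz : z ∈ core S (2 * δ) i) : Sqr z s ⊆ core S δ i := by
  intro x hx k
  have h1 := hT.ell_sub (i, k) x z
  have h2 := norm_sub_le_of_mem_sq hx
  have h3 := hz k
  have hK : 0 < K := lt_of_lt_of_le one_pos hT.one
  have h4 : K * ‖x - z‖ ≤ K * (2 * s) := mul_le_mul_of_nonneg_left h2 hK.le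
  rw [abs_le] at h1
  nlinarith [h1.1]

theorem convex_core (δ : ℝ) (i : Fin S.n) : Convex ℝ (core S δ i) := by
  intro x hx y hy a b ha hb hab k
  have h : S.ell (i, k) (a • x + b • y) = a * S.ell (i, k) x + b * S.ell (i, k) y := by
    unfold Surf.ell cr
    simp only [Complex.add_re, Complex.add_im, Complex.sub_re, Complex.sub_im, Complex.real_smul,
      Complex.re_ofReal_mul, Complex.im_ofReal_mul]
    linear_combination (-((S.vec (i, k)).re * (S.P i k).im) * (-1)
      + -((S.vec (i, k)).im * (S.P i k).re)) * hab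
  rw [h]
  have h1 := mul_le_mul_of_nonneg_left (hx k) ha
  have h2 := mul_le_mul_of_nonneg_left (hy k) hb
  have h3 : a * δ + b * δ = δ := by rw [← add_mul, hab, one_mul]
  linarith

theorem isClosed_core (δ : ℝ) (i : Fin S.n) : IsClosed (core S δ i) := by
  have : core S δ i = ⋂ k, {z | δ ≤ S.ell (i, k) z} := by
    ext z; simp [core]
  rw [this]
  exact isClosed_iInter fun k => isClosed_le continuous_const (S.continuous_ell _)

theorem core_subset_tri {δ : ℝ} (hδ : 0 < δ) (i : Fin S.n) : core S δ i ⊆ tri (S.P i) := by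
  intro z hz
  rw [S.mem_tri]
  intro k
  exact lt_of_lt_of_le hδ (hz k)

theorem continuous_tw {c : ℝ} {w : ℂ → V} (hw : StronglyMeasurable w) :
    StronglyMeasurable (tw c w) := by
  unfold tw
  exact (continuous_ex.comp (by fun_prop : Continuous fun z : ℂ => -(c * z.im))).stronglyMeasurable.smul hw

end Pool.Agent.Helper64.TF
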