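import Pool.Agent.Helper64.TF.SqGeom

/-!
# TF-I5-A: approximate value on a square (plane, Fubini)

Proof. Let `Q = Sqr z s`, `x = (x1, x2)`, `y = (y1, y2)`, `p = (y1, x2)` (in `Q`).
`‖f x - f y‖^2 ≤ 2 ‖f x - f p‖^2 + 2 ‖f p - f y‖^2`. Integrate over `Q × Q`.
First term: depends on `x1, x2, y1` only; with `h = y1 - x1` (so `|h| ≤ 2 s ≤ 1`, and `x`, `x + h`
in `Q`) the integral is `(2 s) * ∫ h, ∫ x in {x ∈ Q, x + h ∈ Q}, ‖f (x + h) - f x‖^2 ≤ 2 s B` (`h1`).
Second term in the same way (`h2`): `y1` is common, `x2` and `y2` vary. So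
`∫ y in Q, ∫ x in Q, ‖f x - f y‖^2 ≤ 8 s B`, and as `volume Q = 4 s^2` there is `y ∈ Q` with
`∫ x in Q, ‖f x - f y‖^2 ≤ 8 s B / (4 s^2) = (2 / s) B` (`exists_le_laverage`, or by contradiction).
Take `a = f y`. Use `Complex.measurableEquivRealProd` / `Complex.volume_preserving_equiv_real_prod`
to pass to `ℝ × ℝ`, `lintegral_prod`, and translation invariance. (If `B = ⊤` any `a` works unless
`ofReal (2/s) * ⊤ = ⊤`, which is the case as `s > 0`.)
-/

open MeasureTheory Set
open scoped ENNReal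

namespace Pool.Agent.Helper64.TF

variable {V : Type*} [NormedAddCommGroup V] [InnerProductSpace ℂ V]

private noncomputable def cc (a b : ℝ) : ℂ := (a : ℂ) + (b : ℂ) * Complex.I

private theorem cc_re (a b : ℝ) : (cc a b).re = a := by simp [cc]
private theorem cc_im (a b : ℝ) : (cc a b).im = b := by simp [cc]

private theorem cc_measurable {α : Type*} [MeasurableSpace α] {u v : α → ℝ} (hu : Measurable u)
    (hv : Measurable v) : Measurable fun x => cc (u x) (v x) := by
  unfold cc; fun_prop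

private theorem lint_Q (z : ℂ) (s : ℝ) (F : ℂ → ℝ≥0∞) (hF : Measurable F) :
    ∫⁻ x in Sqr z s, F x = ∫⁻ x1 in Icc (z.re - s) (z.re + s),
      ∫⁻ x2 in Icc (z.im - s) (z.im + s), F (cc x1 x2) := by
  have hpre : Sqr z s = Complex.measurableEquivRealProd ⁻¹'
      (Icc (z.re - s) (z.re + s) ×ˢ Icc (z.im - s) (z.im + s)) := by
    rw [sq_eq]
    ext x
    simp only [Complex.mem_reProdIm, mem_Icc, mem_preimage, mem_prod,
      Complex.measurableEquivRealProd_apply]
  have h1 : ∫⁻ x in Sqr z s, F x = ∫⁻ p in (Icc (z.re - s) (z.re + s) ×ˢ Icc (z.im - s) (z.im + s)),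
      F (cc p.1 p.2) := by
    have hF2 : Measurable fun p : ℝ × ℝ => F (cc p.1 p.2) :=
      hF.comp (cc_measurable measurable_fst measurable_snd)
    rw [hpre, ← Complex.volume_preserving_equiv_real_prod.setLIntegral_comp_preimage
      (measurableSet_Icc.prod measurableSet_Icc) hF2]
    refine lintegral_congr fun x => ?_
    simp only [Complex.measurableEquivRealProd_apply]
    congr 1
    exact Complex.ext (by simp [cc]) (by simp [cc])
  rw [h1, Measure.volume_eq_prod, ← Measure.prod_restrict, lintegral_prod]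
  exact (hF.comp (cc_measurable measurable_fst measurable_snd)).aemeasurable

private theorem shift (Ψ : ℝ → ℝ → ℝ≥0∞) (hΨ : Measurable (Function.uncurry Ψ)) (α β : ℝ)
    (hαβ : β - α ≤ 1) :
    ∫⁻ h in Icc (-1 : ℝ) 1, ∫⁻ x in Icc α β, (Icc α β).indicator (Ψ x) (x + h) =
      ∫⁻ x in Icc α β, ∫⁻ y in Icc α β, Ψ x y := by
  have hm : Measurable fun p : ℝ × ℝ => (Icc α β).indicator (Ψ p.2) (p.2 + p.1) := by
    have h1 : (fun p : ℝ × ℝ => (Icc α β).indicator (Ψ p.2) (p.2 + p.1)) =
        ({p : ℝ × ℝ | p.2 + p.1 ∈ Icc α β}).indicator (fun p => Function.uncurry Ψ (p.2, p.2 + p.1)) := by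
      ext p
      by_cases hp : p.2 + p.1 ∈ Icc α β
      · rw [indicator_of_mem hp, indicator_of_mem (show p ∈ {p : ℝ × ℝ | p.2 + p.1 ∈ Icc α β} from hp)]
        rfl
      · rw [indicator_of_notMem hp,
          indicator_of_notMem (show p ∉ {p : ℝ × ℝ | p.2 + p.1 ∈ Icc α β} from hp)]
    rw [h1]
    refine Measurable.indicator (hΨ.comp (by fun_prop)) ?_
    exact measurableSet_Icc.preimage (by fun_prop : Measurable fun p : ℝ × ℝ => p.2 + p.1)
  rw [lintegral_lintegral_swap (f := fun h x => (Icc α β).indicator (Ψ x) (x + h)) hm.aemeasurable]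
  refine setLIntegral_congr_fun measurableSet_Icc fun x hx => ?_
  have h2 : ∫⁻ h in Icc (-1 : ℝ) 1, (Icc α β).indicator (Ψ x) (x + h) =
      ∫⁻ h, (Icc α β).indicator (Ψ x) (x + h) := by
    rw [← lintegral_indicator measurableSet_Icc]
    refine lintegral_congr fun h => ?_
    by_cases hh : h ∈ Icc (-1 : ℝ) 1
    · rw [indicator_of_mem hh]
    · rw [indicator_of_notMem hh, indicator_of_notMem]
      intro h3
      apply hh
      rw [mem_Icc] at hx h3 ⊢
      constructor <;> linarith [hx.1, hx.2, h3.1, h3.2]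
  rw [h2, lintegral_add_left_eq_self (fun y => (Icc α β).indicator (Ψ x) y) x,
    lintegral_indicator measurableSet_Icc]


theorem sq_value (f : ℂ → V) (hf : StronglyMeasurable f) (z : ℂ) {s : ℝ} (hs : 0 < s)
    (hs1 : 2 * s ≤ 1) (B : ℝ≥0∞)
    (h1 : ∫⁻ h in Icc (-1 : ℝ) 1, ∫⁻ x in {x | x ∈ Sqr z s ∧ x + (h : ℂ) ∈ Sqr z s},
      ‖f (x + (h : ℂ)) - f x‖ₑ ^ 2 ≤ B)
    (h2 : ∫⁻ t in Icc (-1 : ℝ) 1, ∫⁻ x in {x | x ∈ Sqr z s ∧ x + (t : ℂ) * Complex.I ∈ Sqr z s},
      ‖f (x + (t : ℂ) * Complex.I) - f x‖ₑ ^ 2 ≤ B) :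
    ∃ a : V, Val f (Sqr z s) (ENNReal.ofReal (2 / s) * B) a := by
  set m : ℂ → ℂ → ℝ≥0∞ := fun x y => ‖f x - f y‖ₑ ^ 2 with hmdef
  have hm : Measurable (Function.uncurry m) := by
    have : StronglyMeasurable fun p : ℂ × ℂ => f p.1 - f p.2 :=
      (hf.comp_measurable measurable_fst).sub (hf.comp_measurable measurable_snd)
    exact this.enorm.pow_const 2
  have hmc : ∀ {α : Type} [MeasurableSpace α] {u v : α → ℂ}, Measurable u → Measurable v →
      Measurable fun x => m (u x) (v x) := fun hu hv => hm.comp (hu.prodMk hv)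
  set I1 := Icc (z.re - s) (z.re + s) with hI1
  set I2 := Icc (z.im - s) (z.im + s) with hI2
  have mQ : ∀ a b : ℝ, cc a b ∈ Sqr z s ↔ a ∈ I1 ∧ b ∈ I2 := by
    intro a b
    rw [sq_eq, Complex.mem_reProdIm, cc_re, cc_im]
  -- the integral over the moved square
  have key : ∀ w : ℂ, ∫⁻ x in {x | x ∈ Sqr z s ∧ x + w ∈ Sqr z s}, ‖f (x + w) - f x‖ₑ ^ 2 =
      ∫⁻ x1 in I1, ∫⁻ x2 in I2, I1.indicator (fun _ => I2.indicator (fun _ =>
        m (cc (x1 + w.re) (x2 + w.im)) (cc x1 x2)) (x2 + w.im)) (x1 + w.re) := by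
    intro w
    have e1 : {x | x ∈ Sqr z s ∧ x + w ∈ Sqr z s} = (fun x => x + w) ⁻¹' (Sqr z s) ∩ Sqr z s := by
      ext x; exact and_comm
    have hP : MeasurableSet ((fun x => x + w) ⁻¹' (Sqr z s)) :=
      (measurableSet_sq z s).preimage (by fun_prop)
    rw [e1, ← Measure.restrict_restrict hP, ← lintegral_indicator hP, lint_Q]
    · refine lintegral_congr fun x1 => lintegral_congr fun x2 => ?_
      have e2 : cc x1 x2 + w = cc (x1 + w.re) (x2 + w.im) := by
        apply Complex.ext <;> simp [cc]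
      by_cases ha : x1 + w.re ∈ I1
      · rw [indicator_of_mem ha]
        by_cases hb : x2 + w.im ∈ I2
        · rw [indicator_of_mem hb, indicator_of_mem, e2]
          show cc x1 x2 + w ∈ Sqr z s
          rw [e2, mQ]; exact ⟨ha, hb⟩
        · rw [indicator_of_notMem hb, indicator_of_notMem]
          show cc x1 x2 + w ∉ Sqr z s
          rw [e2, mQ]; exact fun h => hb h.2
      · rw [indicator_of_notMem ha, indicator_of_notMem]
        show cc x1 x2 + w ∉ Sqr z s
        rw [e2, mQ]; exact fun h => ha h.1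
    · exact Measurable.indicator (hmc (by fun_prop) measurable_id) hP
  have hcc : ∀ {α : Type} [MeasurableSpace α] {u v u' v' : α → ℝ}, Measurable u → Measurable v →
      Measurable u' → Measurable v' → Measurable fun x => m (cc (u x) (v x)) (cc (u' x) (v' x)) :=
    fun h1 h2 h3 h4 => hmc (cc_measurable h1 h2) (cc_measurable h3 h4)
  -- horizontal part
  have T1 : ∫⁻ a in I1, ∫⁻ b in I1, ∫⁻ c in I2, m (cc b c) (cc a c) ≤ B := by
    refine le_trans (le_of_eq ?_) h1
    have hΨ : Measurable (Function.uncurry fun a b : ℝ => ∫⁻ c in I2, m (cc b c) (cc a c)) := by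
      have : Measurable fun p : (ℝ × ℝ) × ℝ => m (cc p.1.2 p.2) (cc p.1.1 p.2) :=
        hcc (by fun_prop) (by fun_prop) (by fun_prop) (by fun_prop)
      exact this.lintegral_prod_right'
    rw [hI1, ← shift _ hΨ _ _ (by linarith), ← hI1]
    refine lintegral_congr fun h => ?_
    rw [key]
    refine lintegral_congr fun x1 => ?_
    simp only [Complex.ofReal_re, Complex.ofReal_im, add_zero]
    by_cases ha : x1 + h ∈ I1
    · simp only [indicator_of_mem ha]
      refine setLIntegral_congr_fun measurableSet_Icc fun x2 hx2 => ?_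
      rw [indicator_of_mem hx2]
    · simp only [indicator_of_notMem ha, lintegral_zero]
  -- vertical part
  have T2 : ∫⁻ b in I2, ∫⁻ d in I2, ∫⁻ a in I1, m (cc a d) (cc a b) ≤ B := by
    refine le_trans (le_of_eq ?_) h2
    have hΨ : Measurable (Function.uncurry fun b d : ℝ => ∫⁻ a in I1, m (cc a d) (cc a b)) := by
      have : Measurable fun p : (ℝ × ℝ) × ℝ => m (cc p.2 p.1.2) (cc p.2 p.1.1) :=
        hcc (by fun_prop) (by fun_prop) (by fun_prop) (by fun_prop)
      exact this.lintegral_prod_right'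
    rw [hI2, ← shift _ hΨ _ _ (by linarith), ← hI2]
    refine lintegral_congr fun t => ?_
    rw [key]
    have ere : ((t : ℂ) * Complex.I).re = 0 := by simp
    have eim : ((t : ℂ) * Complex.I).im = t := by simp
    rw [ere, eim]
    simp only [add_zero]
    have e3 : ∫⁻ x1 in I1, ∫⁻ x2 in I2, I1.indicator (fun _ => I2.indicator (fun _ =>
        m (cc x1 (x2 + t)) (cc x1 x2)) (x2 + t)) x1 =
        ∫⁻ x1 in I1, ∫⁻ x2 in I2, I2.indicator (fun _ =>
        m (cc x1 (x2 + t)) (cc x1 x2)) (x2 + t) := by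
      refine setLIntegral_congr_fun measurableSet_Icc fun x1 hx1 => ?_
      refine lintegral_congr fun x2 => ?_
      rw [indicator_of_mem hx1]
    rw [e3, lintegral_lintegral_swap]
    · refine lintegral_congr fun x2 => ?_
      by_cases ha : x2 + t ∈ I2
      · simp only [indicator_of_mem ha]
      · simp only [indicator_of_notMem ha, lintegral_zero]
    · have e4 : (Function.uncurry fun x1 x2 : ℝ => I2.indicator (fun _ =>
          m (cc x1 (x2 + t)) (cc x1 x2)) (x2 + t)) =
          ({p : ℝ × ℝ | p.2 + t ∈ I2}).indicator (fun p => m (cc p.1 (p.2 + t)) (cc p.1 p.2)) := by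
        ext p
        by_cases hp : p.2 + t ∈ I2
        · rw [Function.uncurry, indicator_of_mem hp,
            indicator_of_mem (show p ∈ {p : ℝ × ℝ | p.2 + t ∈ I2} from hp)]
        · rw [Function.uncurry, indicator_of_notMem hp,
            indicator_of_notMem (show p ∉ {p : ℝ × ℝ | p.2 + t ∈ I2} from hp)]
      rw [e4]
      refine (Measurable.indicator (hcc (by fun_prop) (by fun_prop) (by fun_prop) (by fun_prop))
        ?_).aemeasurable
      exact measurableSet_Icc.preimage (by fun_prop : Measurable fun p : ℝ × ℝ => p.2 + t)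
  have T2' : ∫⁻ a in I1, ∫⁻ b in I2, ∫⁻ d in I2, m (cc a d) (cc a b) ≤ B := by
    refine le_trans (le_of_eq ?_) T2
    rw [lintegral_lintegral_swap]
    · refine lintegral_congr fun b => ?_
      rw [lintegral_lintegral_swap]
      exact (hcc (by fun_prop) (by fun_prop) (by fun_prop) (by fun_prop)).aemeasurable
    · have : Measurable fun p : (ℝ × ℝ) × ℝ => m (cc p.1.1 p.2) (cc p.1.1 p.1.2) :=
        hcc (by fun_prop) (by fun_prop) (by fun_prop) (by fun_prop)
      exact this.lintegral_prod_right'.aemeasurable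
  have vI1 : volume I1 = ENNReal.ofReal (2 * s) := by
    rw [hI1, Real.volume_Icc]; congr 1; ring
  have vI2 : volume I2 = ENNReal.ofReal (2 * s) := by
    rw [hI2, Real.volume_Icc]; congr 1; ring
  have tri : ∀ x y w : ℂ, m x w ≤ 2 * m x y + 2 * m y w := by
    intro x y w
    have e1 : ‖f x - f w‖ₑ ≤ ‖f x - f y‖ₑ + ‖f y - f w‖ₑ := by
      have : f x - f w = (f x - f y) + (f y - f w) := by abel
      rw [this]; exact enorm_add_le _ _
    calc ‖f x - f w‖ₑ ^ 2 ≤ (‖f x - f y‖ₑ + ‖f y - f w‖ₑ) ^ 2 := by gcongr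
      _ ≤ 2 * ‖f x - f y‖ₑ ^ 2 + 2 * ‖f y - f w‖ₑ ^ 2 := by
        have h3 := ENNReal.rpow_add_le_mul_rpow_add_rpow (‖f x - f y‖ₑ) (‖f y - f w‖ₑ)
          (p := 2) (by norm_num)
        have e5 : (2 : ℝ) - 1 = 1 := by norm_num
        rw [e5, ENNReal.rpow_one, mul_add] at h3
        simpa only [ENNReal.rpow_two] using h3
  -- the double integral
  have M : ∫⁻ y in Sqr z s, ∫⁻ x in Sqr z s, m x y ≤ ENNReal.ofReal (8 * s) * B := by
    have hmm : Measurable fun y : ℂ => ∫⁻ x in Sqr z s, m x y := by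
      have : Measurable fun p : ℂ × ℂ => m p.2 p.1 := hmc measurable_snd measurable_fst
      exact this.lintegral_prod_right'
    have hA : Measurable fun a : ℝ => ∫⁻ b in I1, ∫⁻ c in I2, m (cc b c) (cc a c) := by
      have h3 : Measurable fun p : (ℝ × ℝ) × ℝ => m (cc p.1.2 p.2) (cc p.1.1 p.2) :=
        hcc (by fun_prop) (by fun_prop) (by fun_prop) (by fun_prop)
      exact (h3.lintegral_prod_right').lintegral_prod_right'
    have hBm : Measurable (Function.uncurry fun a b : ℝ => ∫⁻ d in I2, m (cc a d) (cc a b)) := by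
      have : Measurable fun p : (ℝ × ℝ) × ℝ => m (cc p.1.1 p.2) (cc p.1.1 p.1.2) :=
        hcc (by fun_prop) (by fun_prop) (by fun_prop) (by fun_prop)
      exact this.lintegral_prod_right'
    have step : ∀ a b : ℝ, ∫⁻ x in Sqr z s, m x (cc a b) ≤
        2 * (∫⁻ x1 in I1, ∫⁻ c in I2, m (cc x1 c) (cc a c)) +
        2 * ENNReal.ofReal (2 * s) * ∫⁻ d in I2, m (cc a d) (cc a b) := by
      intro a b
      have g0 : Measurable fun x : ℂ => m x (cc a b) := hmc measurable_id measurable_const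
      rw [lint_Q _ _ _ g0]
      calc ∫⁻ x1 in I1, ∫⁻ x2 in I2, m (cc x1 x2) (cc a b)
          ≤ ∫⁻ x1 in I1, ∫⁻ x2 in I2, (2 * m (cc x1 x2) (cc a x2) + 2 * m (cc a x2) (cc a b)) :=
            lintegral_mono fun x1 => lintegral_mono fun x2 => tri _ _ _
        _ = ∫⁻ x1 in I1, (2 * (∫⁻ x2 in I2, m (cc x1 x2) (cc a x2)) +
              2 * ∫⁻ x2 in I2, m (cc a x2) (cc a b)) := by
            refine lintegral_congr fun x1 => ?_
            have g1 : Measurable fun x2 : ℝ => m (cc x1 x2) (cc a x2) :=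
              hcc (by fun_prop) (by fun_prop) (by fun_prop) (by fun_prop)
            have g2 : Measurable fun x2 : ℝ => m (cc a x2) (cc a b) :=
              hcc (by fun_prop) (by fun_prop) (by fun_prop) (by fun_prop)
            rw [lintegral_add_left (g1.const_mul 2), lintegral_const_mul _ g1,
              lintegral_const_mul _ g2]
        _ = _ := by
            rw [lintegral_add_right _ measurable_const, lintegral_const_mul', setLIntegral_const,
              vI1]
            · ring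
            · norm_num
    calc ∫⁻ y in Sqr z s, ∫⁻ x in Sqr z s, m x y
        = ∫⁻ a in I1, ∫⁻ b in I2, ∫⁻ x in Sqr z s, m x (cc a b) := lint_Q _ _ _ hmm
      _ ≤ ∫⁻ a in I1, ∫⁻ b in I2, (2 * (∫⁻ x1 in I1, ∫⁻ c in I2, m (cc x1 c) (cc a c)) +
        2 * ENNReal.ofReal (2 * s) * ∫⁻ d in I2, m (cc a d) (cc a b)) :=
          lintegral_mono fun a => lintegral_mono fun b => step a b
      _ = ∫⁻ a in I1, (2 * ENNReal.ofReal (2 * s) *
            (∫⁻ x1 in I1, ∫⁻ c in I2, m (cc x1 c) (cc a c)) +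
          2 * ENNReal.ofReal (2 * s) * ∫⁻ b in I2, ∫⁻ d in I2, m (cc a d) (cc a b)) := by
          refine lintegral_congr fun a => ?_
          rw [lintegral_add_left measurable_const, setLIntegral_const, vI2,
            lintegral_const_mul']
          · ring
          · exact ENNReal.mul_ne_top (by norm_num) ENNReal.ofReal_ne_top
      _ = 2 * ENNReal.ofReal (2 * s) *
            (∫⁻ a in I1, ∫⁻ x1 in I1, ∫⁻ c in I2, m (cc x1 c) (cc a c)) +
          2 * ENNReal.ofReal (2 * s) *
            ∫⁻ a in I1, ∫⁻ b in I2, ∫⁻ d in I2, m (cc a d) (cc a b) := by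
          rw [lintegral_add_left (hA.const_mul _), lintegral_const_mul', lintegral_const_mul']
          · exact ENNReal.mul_ne_top (by norm_num) ENNReal.ofReal_ne_top
          · exact ENNReal.mul_ne_top (by norm_num) ENNReal.ofReal_ne_top
      _ ≤ 2 * ENNReal.ofReal (2 * s) * B + 2 * ENNReal.ofReal (2 * s) * B := by
          gcongr
      _ = ENNReal.ofReal (8 * s) * B := by
          have e6 : ENNReal.ofReal (8 * s) = 4 * ENNReal.ofReal (2 * s) := by
            have : (4 : ℝ≥0∞) = ENNReal.ofReal 4 := by norm_num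
            rw [this, ← ENNReal.ofReal_mul (by norm_num)]
            congr 1; ring
          rw [e6]; ring
  have hmm : Measurable fun y : ℂ => ∫⁻ x in Sqr z s, m x y := by
    have : Measurable fun p : ℂ × ℂ => m p.2 p.1 := hmc measurable_snd measurable_fst
    exact this.lintegral_prod_right'
  have hv := volume_sq z hs.le
  have hv0 : volume (Sqr z s) ≠ 0 := by
    rw [hv]; exact (ENNReal.ofReal_pos.mpr (by positivity)).ne'
  have hv1 : volume (Sqr z s) ≠ ⊤ := by rw [hv]; exact ENNReal.ofReal_ne_top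
  obtain ⟨y, hy, hle⟩ := exists_le_setLAverage hv0 hv1 hmm.aemeasurable
  refine ⟨f y, ?_⟩
  unfold Val
  refine hle.trans ?_
  rw [setLAverage_eq, hv]
  refine le_trans (ENNReal.div_le_div_right M _) ?_
  rw [ENNReal.div_eq_inv_mul, ← mul_assoc]
  gcongr
  rw [← ENNReal.ofReal_inv_of_pos (by positivity), ← ENNReal.ofReal_mul (by positivity)]
  apply ENNReal.ofReal_le_ofReal
  rw [le_div_iff₀ hs]
  field_simp
  norm_num

end Pool.Agent.Helper64.TF
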